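import Pool.Agent.H55.Jay.Op

set_option autoImplicit false
set_option linter.all false

/-!
# The forcing adding an enumeration of the points of the unit interval
-/

namespace Pool.Agent.H55.Tig

open Pool.Agent.H12.Jayne Pool.Agent.H55.Lav MeasureTheory

/-- The compact space. -/
abbrev Tp : Type := unitInterval

lemma exists_kap (C : Set Tp) (hC : C.Countable) : ∃ K : Set Tp, IsClosed K ∧ 1 / 2 ≤ volume.real K ∧
    ∀ t ∈ C, t ∉ K := by
  have h0 : volume C = 0 := hC.measure_zero _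
  obtain ⟨U, hU1, hU2, hU3⟩ := C.exists_isOpen_lt_of_lt (μ := volume) (1 / 2) (by rw [h0]; simp)
  refine ⟨Uᶜ, hU2.isClosed_compl, ?_, fun t ht h => h (hU1 ht)⟩
  rw [measureReal_compl hU2.measurableSet]
  have h1 : volume.real U ≤ 1 / 2 := by
    unfold Measure.real
    have := ENNReal.toReal_mono (b := (1 / 2 : ENNReal)) (by simp) hU3.le
    simpa using this
  have h2 : volume.real (Set.univ : Set Tp) = 1 := by simp
  linarith

open Classical in
/-- A closed set of measure at least `1 / 2` which misses `C`. -/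
noncomputable def kap (C : Set Tp) : Set Tp := if h : C.Countable then (exists_kap C h).choose else Set.univ

lemma kap_closed (C : Set Tp) : IsClosed (kap C) := by
  unfold kap
  split_ifs with h
  · exact (exists_kap C h).choose_spec.1
  · exact isClosed_univ

lemma kap_meas (C : Set Tp) : 1 / 2 ≤ volume.real (kap C) := by
  unfold kap
  split_ifs with h
  · exact (exists_kap C h).choose_spec.2.1
  · simp; norm_num

lemma kap_miss {C : Set Tp} (h : C.Countable) {t : Tp} (ht : t ∈ C) : t ∉ kap C := by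
  unfold kap
  rw [dif_pos h]
  exact (exists_kap C h).choose_spec.2.2 t ht

/-- The conditions: countable sequences of points. -/
structure QC where
  /-- the length -/
  h : Ω1
  /-- the points -/
  s : Ω1 → Tp

instance : Preorder QC where
  le q p := p.h ≤ q.h ∧ ∀ b < p.h, q.s b = p.s b
  le_refl p := ⟨le_rfl, fun b _ => rfl⟩
  le_trans r q p h1 h2 := ⟨h2.1.trans h1.1, fun b hb => (h1.2 b (hb.trans_le h2.1)).trans (h2.2 b hb)⟩

lemma qc_le {q p : QC} : q ≤ p ↔ p.h ≤ q.h ∧ ∀ b < p.h, q.s b = p.s b := Iff.rfl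


noncomputable instance : OrderTop QC where
  top := ⟨⊥, fun _ => 0⟩
  le_top q := ⟨bot_le, fun b hb => absurd hb (not_lt_bot)⟩

/-- The closed set attached to `β` by the condition `q`. -/
noncomputable def Kq (q : QC) (β : Ω1) : Set Tp := kap (q.s '' Set.Iic β)

lemma kq_closed (q : QC) (β : Ω1) : IsClosed (Kq q β) := kap_closed _
lemma kq_meas (q : QC) (β : Ω1) : 1 / 2 ≤ volume.real (Kq q β) := kap_meas _

lemma om1_Iic (β : Ω1) : (Set.Iic β).Countable := by
  obtain ⟨γ, hγ⟩ := om1_lt β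
  exact (om1_Iio γ).mono (fun x hx => lt_of_le_of_lt hx hγ)

lemma kq_miss (q : QC) {b β : Ω1} (h : b ≤ β) : q.s b ∉ Kq q β :=
  kap_miss ((om1_Iic β).image _) ⟨b, h, rfl⟩

lemma kq_congr {q p : QC} (h : q ≤ p) {β : Ω1} (hβ : β < p.h) : Kq q β = Kq p β := by
  unfold Kq
  congr 1
  ext t
  constructor
  · rintro ⟨b, hb, rfl⟩
    exact ⟨b, hb, (h.2 b (lt_of_le_of_lt hb hβ)).symm⟩
  · rintro ⟨b, hb, rfl⟩
    exact ⟨b, hb, h.2 b (lt_of_le_of_lt hb hβ)⟩

lemma qc_anti {p : ℕ → QC} (h : ∀ n, p (n + 1) ≤ p n) {m n : ℕ} (hmn : m ≤ n) : p n ≤ p m := by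
  induction n, hmn using Nat.le_induction with
  | base => exact le_rfl
  | succ n _ ih => exact (h n).trans ih

lemma exists_lim {p : ℕ → QC} (hp : ∀ n, p (n + 1) ≤ p n) :
    ∃ q : QC, (∀ i, q ≤ p i) ∧ ∀ α, α < q.h → ∃ i, α < (p i).h := by
  classical
  have hcount : {α | ∃ i, α < (p i).h}.Countable := by
    have : {α | ∃ i, α < (p i).h} = ⋃ i, Set.Iio (p i).h := by ext; simp
    rw [this]
    exact Set.countable_iUnion (fun i => om1_Iio _)
  obtain ⟨δ, hδ⟩ := om1_seg hcount (fun α ⟨i, hi⟩ β hβ => ⟨i, hβ.trans hi⟩)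
  have hag : ∀ i j b, b < (p i).h → b < (p j).h → (p i).s b = (p j).s b := by
    intro i j b hi hj
    rcases le_total i j with h | h
    · exact ((qc_anti hp h).2 b hi).symm
    · exact (qc_anti hp h).2 b hj
  refine ⟨⟨δ, fun α => if h : ∃ i, α < (p i).h then (p h.choose).s α else 0⟩, fun i => ⟨?_, fun b hb => ?_⟩,
    fun α hα => (hδ α).mpr hα⟩
  · show (p i).h ≤ δ
    by_contra hcon
    push Not at hcon
    exact lt_irrefl _ ((hδ δ).mp ⟨i, hcon⟩)
  · have h : ∃ i, b < (p i).h := ⟨i, hb⟩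
    show (if h : ∃ i, b < (p i).h then (p h.choose).s b else 0) = (p i).s b
    rw [dif_pos h]
    exact hag _ _ _ h.choose_spec hb

theorem qc_closed : Sig.SClosed QC := fun p hp => by
  obtain ⟨q, hq, _⟩ := exists_lim hp
  exact ⟨q, hq⟩

lemma exists_point (p : QC) (t : Tp) : ∃ q ≤ p, p.h < q.h ∧ q.s p.h = t := by
  classical
  obtain ⟨β, hβ⟩ := om1_lt p.h
  exact ⟨⟨β, Function.update p.s p.h t⟩, ⟨hβ.le, fun b hb => by simp [Function.update_of_ne hb.ne]⟩, hβ, by simp⟩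

lemma exists_higher (p : QC) (α : Ω1) : ∃ q ≤ p, α < q.h := by
  obtain ⟨β, hβ⟩ := om1_lt (max p.h α)
  exact ⟨⟨β, p.s⟩, ⟨((le_max_left _ _).trans_lt hβ).le, fun b _ => rfl⟩, (le_max_right _ _).trans_lt hβ⟩

/-- The conditions enumerating `t`. -/
def Dt (t : Tp) : Set QC := {q | ∃ b < q.h, q.s b = t}

lemma dt_dense (t : Tp) (p : QC) : ∃ q ∈ Dt t, q ≤ p := by
  obtain ⟨q, h1, h2, h3⟩ := exists_point p t
  exact ⟨q, ⟨_, h2, h3⟩, h1⟩

lemma ht_dense (α : Ω1) (p : QC) : ∃ q ∈ {q : QC | α < q.h}, q ≤ p := by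
  obtain ⟨q, h1, h2⟩ := exists_higher p α
  exact ⟨q, h2, h1⟩

/-- The conditions forcing that `B` belongs to the compact space. -/
def SX (B : Set Ω1) : Set QC := {q | (∀ β ∈ B, β < q.h) ∧ ∃ t, ∀ β ∈ B, t ∈ Kq q β}

lemma sx_mono {B : Set Ω1} {p q : QC} (h : p ∈ SX B) (hq : q ≤ p) : q ∈ SX B := by
  obtain ⟨h1, t, h2⟩ := h
  exact ⟨fun β hβ => (h1 β hβ).trans_le hq.1, t, fun β hβ => by rw [kq_congr hq (h1 β hβ)]; exact h2 β hβ⟩

/-- Subsets of members belong to the space. -/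
lemma sx_sub {B B' : Set Ω1} {p : QC} (h : p ∈ SX B) (hB : B' ⊆ B) : p ∈ SX B' :=
  ⟨fun β hβ => h.1 β (hB hβ), h.2.choose, fun β hβ => h.2.choose_spec β (hB hβ)⟩

/-- The set `B` matches the pair `c`. -/
def Mt (c : Finset Ω1 × Finset Ω1) (B : Set Ω1) : Prop := (∀ β ∈ c.1, β ∈ B) ∧ ∀ β ∈ c.2, β ∉ B

end Pool.Agent.H55.Tig
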