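import Pool.Agent.H55.CSDefs

set_option autoImplicit false

/-!
# Compact zero-dimensional spaces and their probability measures, inside a model

All notions are relativized to a structure `(M, E)`: all quantifiers range over `M`, and `E` is the membership
relation of the model. `w` is the set of natural numbers of the model, `R` the field of real numbers of the model, and
`I` is a set of the model. The spaces are sets `X` of subsets of `I`, with the topology of pointwise convergence
(subspaces of `2 ^ I`). A probability measure on a compact zero-dimensional space is given by its values on the sets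
which are both closed and open, and the weak topology is the topology of pointwise convergence on these sets.
-/

namespace Pool.Agent.H55.TG

open Pool.Agent.H55.SC Pool.Agent.H55.CS

universe u

variable {M : Type u} (E : M → M → Prop) (w R I : M)

/-- In the model, `F` is finite: it is covered by the image of a natural number under a partial function. -/
def IsFinite (F : M) : Prop := ∃ k f, E k w ∧ (∀ x y z, E x k → Rel E f x y → Rel E f x z → y = z) ∧
  ∀ y, E y F → ∃ x, E x k ∧ Rel E f x y

/-- In the model, `O` is a relatively open subset of the set `X` of subsets of `I`. -/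
def IsOpenIn (X O : M) : Prop := Sub E O X ∧ ∀ A, E A O → ∃ F, Sub E F I ∧ IsFinite E w F ∧
  ∀ B, E B X → (∀ i, E i F → (E i A ↔ E i B)) → E B O

/-- In the model, `U` is a relatively closed and open subset of `X`. -/
def IsClopenIn (X U : M) : Prop := IsOpenIn E w I X U ∧ ∀ V, (∀ A, E A V ↔ E A X ∧ ¬ E A U) → IsOpenIn E w I X V

/-- In the model, `X` is compact: every cover by open sets has a finite subcover. -/
def IsCompact (X : M) : Prop := ∀ U, (∀ O, E O U → IsOpenIn E w I X O) → (∀ A, E A X → ∃ O, E O U ∧ E A O) →
  ∃ V, Sub E V U ∧ IsFinite E w V ∧ ∀ A, E A X → ∃ O, E O V ∧ E A O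

/-- In the model, `A` belongs to the closure of `S` in the space `X`. -/
def InClosure (X S A : M) : Prop := ∀ O, IsOpenIn E w I X O → E A O → ∃ B, E B S ∧ E B O

/-- In the model, `X` has countable tightness. -/
def IsCountablyTight (X : M) : Prop := ∀ S A, Sub E S X → E A X → InClosure E w I X S A →
  ∃ T, Sub E T S ∧ IsCountable E w T ∧ InClosure E w I X T A

/-- In the model, `X` is a Corson compactum of countable tightness: a compact, countably tight set of countable
subsets of `I`. -/
structure IsTightCompactum (X : M) : Prop where
  sub : ∀ A, E A X → Sub E A I ∧ IsCountable E w A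
  compact : IsCompact E w I X
  tight : IsCountablyTight E w I X

variable [Field (El E R)] [LinearOrder (El E R)]

/-- In the model, `m` is a probability measure on `X`, given by its values on the closed and open subsets of `X`. -/
structure IsProb (X m : M) : Prop where
  dom : ∃ C, (∀ U, E U C ↔ IsClopenIn E w I X U) ∧ IsFun E m C R
  nonneg : ∀ U (a : El E R), Rel E m U a.1 → 0 ≤ a
  total : Rel E m X (1 : El E R).1
  add : ∀ U V W (a b c : El E R), (∀ A, E A U → ¬ E A V) → (∀ A, E A W ↔ E A U ∨ E A V) → Rel E m U a.1 →
    Rel E m V b.1 → Rel E m W c.1 → c = a + b

/-- In the model, `d` is the Dirac measure at the point `x` of `X`. -/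
def IsDirac (X x d : M) : Prop := E x X ∧ IsProb E w R I X d ∧
  ∀ U, IsClopenIn E w I X U → E x U → Rel E d U (1 : El E R).1

/-- In the model, `d` belongs to the closure of the set `P` of probability measures on `X`: for every finite set `S` of
closed and open subsets of `X` and every `ε > 0` some member of `P` differs from `d` by less than `ε` on `S`. -/
def InWeakClosure (X P d : M) : Prop := ∀ (S : M) (ε : El E R), IsFinite E w S →
  (∀ U, E U S → IsClopenIn E w I X U) → 0 < ε → ∃ m, E m P ∧ ∀ U, E U S → ∀ a b : El E R,
    Rel E m U a.1 → Rel E d U b.1 → a < b + ε ∧ b < a + ε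

end Pool.Agent.H55.TG
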