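import Pool.Agent.H55.Tig.T1
import Pool.Agent.H55.Tig.TDefs

set_option autoImplicit false
set_option linter.all false

/-!
# Names of points and of subsets of the compact space; open sets
-/

namespace Pool.Agent.H55.Tig

open Pool.Agent.H12.Jayne Pool.Agent.H55.Lav Pool.Agent.H55.SC Pool.Agent.H55.ZFU Pool.Agent.H55.Sig Pool.Agent.H55.CS
open Pool.Agent.H55.TG Pool.Agent.H55.Jay

/-- The name of a set of countable ordinals. -/
noncomputable def sN (B : Set Ω1) : Nm QC := .mk B (fun β => ck QC β.1) (fun _ => ⊤)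

/-- The name of the intersection of the compact space with `Z`. -/
noncomputable def XN (Z : Set (Set Ω1)) : Nm QC :=
  .mk (Σ B : Set Ω1, {q : QC // q ∈ SX B ∧ B ∈ Z}) (fun z => sN z.1) (fun z => z.2.1)

/-- Closure properties of `N` used for points. -/
structure BOk (N : Set (Un QC)) : Prop where
  bfn : FnOk N sN
  bw : ∀ B : Set Ω1, InT N B → ∀ ρ, InN N ρ → (∃ β, β ∈ B ∧ ck QC β = ρ) → ∃ β, (β ∈ B ∧ ck QC β = ρ) ∧ InT N β
  dif : ∀ B : Set Ω1, InT N B → ∀ B' : Set Ω1, InT N B' → B ≠ B' → ∃ β, ¬ (β ∈ B ↔ β ∈ B') ∧ InT N β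
  kN : ∀ Z : Set (Set Ω1), InT N Z → InN N (XN Z)
  kw : ∀ Z : Set (Set Ω1), InT N Z → ∀ ρ, InN N ρ → ∀ q : QC, InT N q → (∃ B, sN B = ρ ∧ q ∈ SX B ∧ B ∈ Z) →
    ∃ B, (sN B = ρ ∧ q ∈ SX B ∧ B ∈ Z) ∧ InT N B
  univ : InT N (Set.univ : Set (Set Ω1))
  ht : ∀ α : Ω1, InT N α → InT N {q : QC | α < q.h}
  hts : ∀ q : QC, InT N q → InT N q.h
  fin : ∀ α : Ω1, InT N α → ∀ F : Finset Ω1, (∀ β ∈ F, β < α) → InT N F ∧ InT N (F : Set Ω1)
  bot : InT N (⊥ : Ω1)

lemma countable_finset_below (α : Ω1) : {F : Finset Ω1 | ∀ β ∈ F, β < α}.Countable := by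
  classical
  have hc : Countable ↥(Set.Iio α) := (om1_Iio α).to_subtype
  let g : Finset ↥(Set.Iio α) → Finset Ω1 := fun J => J.map (Function.Embedding.subtype _)
  refine (Set.countable_range g).mono ?_
  intro J hJ
  obtain ⟨F', hF'⟩ := lift_finset (fun b hb => hJ b hb)
  exact ⟨F', hF'⟩

lemma bOk_club : ∀ᶠ N in club (Un QC), BOk N := by
  have h1 : ∀ᶠ N in club (Un QC), ∀ B : Set Ω1, InT N B → ∀ ρ, InN N ρ → (∃ β, β ∈ B ∧ ck QC β = ρ) →
      ∃ β, (β ∈ B ∧ ck QC β = ρ) ∧ InT N β := by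
    refine diagT (fun B => diagN (fun ρ => ?_))
    by_cases h : ∃ β, β ∈ B ∧ ck QC β = ρ
    · obtain ⟨i, hi⟩ := h
      exact (club_inT i).mono (fun N hN _ => ⟨i, hi, hN⟩)
    · exact Filter.Eventually.of_forall (fun N h' => (h h').elim)
  have h2 : ∀ᶠ N in club (Un QC), ∀ B : Set Ω1, InT N B → ∀ B' : Set Ω1, InT N B' → B ≠ B' →
      ∃ β, ¬ (β ∈ B ↔ β ∈ B') ∧ InT N β := by
    refine diagT (fun B => diagT (fun B' => ?_))
    by_cases h : B = B'
    · exact Filter.Eventually.of_forall (fun N h' => (h' h).elim)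
    · have h' : ∃ β, ¬ (β ∈ B ↔ β ∈ B') := by
        by_contra hcon
        push Not at hcon
        exact h (Set.ext hcon)
      obtain ⟨i, hi⟩ := h'
      exact (club_inT i).mono (fun N hN _ => ⟨i, hi, hN⟩)
  have h3 : ∀ᶠ N in club (Un QC), ∀ Z : Set (Set Ω1), InT N Z → InN N (XN Z) := diagT (fun Z => club_inN _)
  have h4 : ∀ᶠ N in club (Un QC), ∀ Z : Set (Set Ω1), InT N Z → ∀ ρ, InN N ρ → ∀ q : QC, InT N q →
      (∃ B, sN B = ρ ∧ q ∈ SX B ∧ B ∈ Z) → ∃ B, (sN B = ρ ∧ q ∈ SX B ∧ B ∈ Z) ∧ InT N B := by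
    refine diagT (fun Z => diagN (fun ρ => diagT (fun q => ?_)))
    by_cases h : ∃ B, sN B = ρ ∧ q ∈ SX B ∧ B ∈ Z
    · obtain ⟨y, hy⟩ := h
      exact (club_inT y).mono (fun N hN _ => ⟨y, hy, hN⟩)
    · exact Filter.Eventually.of_forall (fun N h' => (h h').elim)
  have h5 : ∀ᶠ N in club (Un QC), ∀ α : Ω1, InT N α → InT N {q : QC | α < q.h} := diagT (fun α => club_inT _)
  have h6 : ∀ᶠ N in club (Un QC), ∀ q : QC, InT N q → InT N q.h := diagT (fun α => club_inT _)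
  have h7 : ∀ᶠ N in club (Un QC), ∀ α : Ω1, InT N α → ∀ F : Finset Ω1, (∀ β ∈ F, β < α) →
      InT N F ∧ InT N (F : Set Ω1) := by
    refine diagT (fun α => ?_)
    have : Countable {F : Finset Ω1 | ∀ β ∈ F, β < α} := (countable_finset_below α).to_subtype
    exact (club_all (fun F : {F : Finset Ω1 | ∀ β ∈ F, β < α} => (club_inT F.1).and (club_inT (F.1 : Set Ω1)))).mono
      (fun N hN F hF => hN ⟨F, hF⟩)
  filter_upwards [fnOk_club sN, h1, h2, h3, h4, club_inT (Set.univ : Set (Set Ω1)), h5, h6, h7, club_inT (⊥ : Ω1)] with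
    N a1 a2 a3 a4 a5 a6 a7 a8 a9 a10
  exact ⟨a1, a2, a3, a4, a5, a6, a7, a8, a9, a10⟩

section
variable {N : Set (Un QC)} {G : Set QC} (ok : NOk N) (fok : FOk N) (zok : ZOk N) (ook : OOk N)
  (bo : BOk N) (gen : GenF N G)

/-- The set `B` in the model. -/
noncomputable def bv (G : Set QC) {B : Set Ω1} (h : InT N B) : MM N G := vl G (bo.bfn.fn B h)

/-- The set of all members of the compact space in `Z`, in the model. -/
noncomputable def kv (G : Set QC) {Z : Set (Set Ω1)} (h : InT N Z) : MM N G := vl G (bo.kN Z h)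

/-- The compact space in the model. -/
noncomputable def XM (G : Set QC) : MM N G := kv bo G bo.univ

include bo gen in
lemma exists_height {α : Ω1} (hα : InT N α) : ∃ q ∈ G, α < q.h := by
  obtain ⟨q, hq, h⟩ := gen.gen _ (bo.ht α hα) (ht_dense α)
  exact ⟨q, hq, h⟩

include bo gen in
lemma exists_high (A : Finset Ω1) (hA : ∀ b ∈ A, InT N b) : ∃ q ∈ G, ∀ b ∈ A, b < q.h := by
  classical
  induction A using Finset.induction_on with
  | empty =>
    obtain ⟨q, hq, _⟩ := exists_height bo gen bo.bot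
    exact ⟨q, hq, by simp⟩
  | insert b A _ ih =>
    obtain ⟨p1, hp1, h6⟩ := ih (fun b hb => hA b (Finset.mem_insert_of_mem hb))
    obtain ⟨p2, hp2, h7⟩ := exists_height bo gen (hA b (Finset.mem_insert_self _ _))
    obtain ⟨p3, hp3, h8, h9⟩ := gen.dir p1 hp1 p2 hp2
    refine ⟨p3, hp3, fun c hc => ?_⟩
    rcases Finset.mem_insert.mp hc with h | h
    · rw [h]; exact h7.trans_le h9.1
    · exact (h6 c h).trans_le h8.1

include bo gen in
lemma inT_fin {F : Finset Ω1} (hF : ∀ b ∈ F, InT N b) : InT N F ∧ InT N (F : Set Ω1) := by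
  obtain ⟨q, hq, h⟩ := exists_high bo gen F hF
  exact bo.fin q.h (bo.hts q (gen.sub q hq)) F h

lemma mem_bv (htop : (⊤ : QC) ∈ G) {B : Set Ω1} (hB : InT N B) {z : MM N G} :
    EE z (bv bo G hB) ↔ ∃ β, ∃ h : InT N β, β ∈ B ∧ z = ov G ook h := by
  constructor
  · intro hz
    obtain ⟨⟨β, hβ⟩, h1, _, h3⟩ := mem_val.mp hz
    obtain ⟨β', ⟨h4, h5⟩, h6⟩ := bo.bw B hB _ h1 ⟨β, hβ, rfl⟩
    refine ⟨β', h6, h4, Subtype.ext ?_⟩
    rw [← h3]
    show val N G (ck QC β) = val N G (ck QC β')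
    rw [h5]
    rfl
  · rintro ⟨β, h, hβ, rfl⟩
    exact mem_val.mpr ⟨⟨β, hβ⟩, ook.ck β h, htop, rfl⟩

lemma ov_mem_bv (htop : (⊤ : QC) ∈ G) {B : Set Ω1} (hB : InT N B) {β : Ω1} (h : InT N β) :
    EE (ov G ook h) (bv bo G hB) ↔ β ∈ B := by
  rw [mem_bv ook bo htop hB]
  constructor
  · rintro ⟨β', h', h1, h2⟩
    rw [ov_inj htop h2]; exact h1
  · intro hβ; exact ⟨β, h, hβ, rfl⟩

include ook in
lemma bv_inj (htop : (⊤ : QC) ∈ G) {B B' : Set Ω1} {hB : InT N B} {hB' : InT N B'} (h : bv bo G hB = bv bo G hB') :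
    B = B' := by
  by_contra hne
  obtain ⟨β, h1, h2⟩ := bo.dif B hB B' hB' hne
  apply h1
  rw [← ov_mem_bv ook bo htop hB h2, ← ov_mem_bv ook bo htop hB' h2, h]

lemma mem_kv (gen : GenF N G) {Z : Set (Set Ω1)} (hZ : InT N Z) {z : MM N G} :
    EE z (kv bo G hZ) ↔ ∃ B, ∃ h : InT N B, Ht G (SX B) ∧ B ∈ Z ∧ z = bv bo G h := by
  constructor
  · intro hz
    obtain ⟨⟨y, q, hq⟩, h1, h2, h3⟩ := mem_val.mp hz
    obtain ⟨y', ⟨h4, h5, h6⟩, h7⟩ := bo.kw Z hZ _ h1 q (gen.sub q h2) ⟨y, rfl, hq⟩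
    refine ⟨y', h7, ⟨q, h2, h5⟩, h6, Subtype.ext ?_⟩
    rw [← h3]
    show val N G (sN y) = val N G (sN y')
    rw [h4]
    rfl
  · rintro ⟨y, h, ⟨q, hq, hqS⟩, hyZ, rfl⟩
    exact mem_val.mpr ⟨⟨y, q, hqS, hyZ⟩, bo.bfn.fn y h, hq, rfl⟩

lemma mem_XM (gen : GenF N G) {z : MM N G} : EE z (XM bo G) ↔ ∃ B, ∃ h : InT N B, Ht G (SX B) ∧ z = bv bo G h := by
  refine (mem_kv bo gen bo.univ).trans ?_
  simp

include ok ook gen in
lemma bv_mem_kv {Z : Set (Set Ω1)} (hZ : InT N Z) {B : Set Ω1} (h : InT N B) :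
    EE (bv bo G h) (kv bo G hZ) ↔ Ht G (SX B) ∧ B ∈ Z := by
  have htop := top_mem ok gen
  rw [mem_kv bo gen hZ]
  constructor
  · rintro ⟨y', h', h1, h2, h3⟩
    obtain rfl := bv_inj ook bo htop h3
    exact ⟨h1, h2⟩
  · rintro ⟨h1, h2⟩
    exact ⟨B, h, h1, h2, rfl⟩

include ok ook gen in
lemma bv_mem_XM {B : Set Ω1} (h : InT N B) : EE (bv bo G h) (XM bo G) ↔ Ht G (SX B) := by
  refine (bv_mem_kv ok ook bo gen bo.univ h).trans ?_
  simp

/-- In the model, `O` is an open subset of the compact space. -/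
def OpM (O : MM N G) : Prop := IsOpenIn (EE (N := N) (G := G)) (ww G zok) (kk G ook) (XM bo G) O

/-- The condition of openness expressed by the points. -/
def Sem (O : MM N G) : Prop := (∀ z, EE z O → EE z (XM bo G)) ∧ ∀ B (h : InT N B), EE (bv bo G h) O →
  ∃ F : Finset Ω1, (∀ i ∈ F, InT N i) ∧ ∀ B' (h' : InT N B'), Ht G (SX B') →
    (∀ i ∈ F, (i ∈ B ↔ i ∈ B')) → EE (bv bo G h') O

include ok fok gen in
theorem opM_iff {O : MM N G} : OpM zok ook bo O ↔ Sem bo O := by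
  classical
  have htop := top_mem ok gen
  constructor
  · rintro ⟨h1, h2⟩
    refine ⟨h1, fun B hB hBO => ?_⟩
    obtain ⟨F, hFI, hF, h3⟩ := h2 _ hBO
    have hfin : {z : MM N G | EE z F}.Finite := Pool.Agent.H55.Jay.finite_of htop hF
    have hL : {i : Ω1 | ∃ h : InT N i, EE (ov G ook h) F}.Finite := by
      have hinj : Function.Injective (fun i : {i : Ω1 | ∃ h : InT N i, EE (ov G ook h) F} =>
          (⟨ov G ook i.2.choose, i.2.choose_spec⟩ : {z : MM N G | EE z F})) := by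
        intro i j hij
        have h := congrArg Subtype.val hij
        exact Subtype.ext (ov_inj (ook := ook) (hα := i.2.choose) (hβ := j.2.choose) htop h)
      have : Finite {z : MM N G | EE z F} := hfin.to_subtype
      have hfi := Finite.of_injective _ hinj
      exact Set.toFinite _
    refine ⟨hL.toFinset, fun i hi => ?_, fun B' hB' hS hn => ?_⟩
    · obtain ⟨h, _⟩ := hL.mem_toFinset.mp hi
      exact h
    · refine h3 _ ((bv_mem_XM ok ook bo gen hB').mpr hS) (fun x hx => ?_)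
      obtain ⟨i, hi, rfl⟩ := (mem_kk htop).mp (hFI x hx)
      rw [ov_mem_bv ook bo htop hB hi, ov_mem_bv ook bo htop hB' hi]
      exact hn i (hL.mem_toFinset.mpr ⟨hi, hx⟩)
  · rintro ⟨h1, h2⟩
    refine ⟨h1, fun x hx => ?_⟩
    obtain ⟨B, hB, hS, rfl⟩ := (mem_XM bo gen).mp (h1 x hx)
    obtain ⟨L, hL, h3⟩ := h2 B hB hx
    have Hf := Pool.Agent.H55.Jay.exists_fin ok fok zok gen (L.attach.toList.map (fun i => ov G ook (hL i.1 i.2)))
    obtain ⟨F, hF1, hF2⟩ := Hf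
    have hF : ∀ z, EE z F ↔ ∃ i, ∃ h : i ∈ L, z = ov G ook (hL i h) := by
      intro z
      rw [hF1]
      simp only [List.mem_map, Finset.mem_toList, Finset.mem_attach, true_and, Subtype.exists]
      constructor
      · rintro ⟨i, hi, rfl⟩; exact ⟨i, hi, rfl⟩
      · rintro ⟨i, hi, rfl⟩; exact ⟨i, hi, rfl⟩
    refine ⟨F, fun z hz => ?_, hF2, fun z hz hag => ?_⟩
    · obtain ⟨i, hi, rfl⟩ := (hF z).mp hz
      exact (mem_kk htop).mpr ⟨i, hL i hi, rfl⟩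
    · obtain ⟨B', hB', hS', rfl⟩ := (mem_XM bo gen).mp hz
      refine h3 B' hB' hS' (fun i hi => ?_)
      have h4 := hag _ ((hF _).mpr ⟨i, hi, rfl⟩)
      rwa [ov_mem_bv ook bo htop hB (hL i hi), ov_mem_bv ook bo htop hB' (hL i hi)] at h4

end

end Pool.Agent.H55.Tig
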