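import Pool.Agent.H55.Tig.T2

set_option autoImplicit false
set_option linter.all false

/-!
# Finite covers
-/

namespace Pool.Agent.H55.Tig

open Pool.Agent.H12.Jayne Pool.Agent.H55.Lav Pool.Agent.H55.SC Pool.Agent.H55.ZFU Pool.Agent.H55.Sig Pool.Agent.H55.CS
open Pool.Agent.H55.TG Pool.Agent.H55.Jay

/-- The pairs of finite sets of countable ordinals. -/
abbrev Pr : Type := Finset Ω1 × Finset Ω1

/-- The support of a finite set of pairs. -/
noncomputable def supp (H : Finset Pr) : Finset Ω1 := by classical exact H.biUnion (fun c => c.1 ∪ c.2)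

lemma mem_supp {H : Finset Pr} {β : Ω1} : β ∈ supp H ↔ ∃ c ∈ H, β ∈ c.1 ∨ β ∈ c.2 := by
  classical
  simp [supp]

/-- The points `t` all of whose sets match a pair in `H`. -/
def Wq (q : QC) (H : Finset Pr) : Set Tp := {t | ∀ B : Set Ω1, (∀ β ∈ B, β ∈ supp H ∧ t ∈ Kq q β) → ∃ c ∈ H, Mt c B}

lemma wq_congr {p q : QC} (h : q ≤ p) {H : Finset Pr} (hH : ∀ β ∈ supp H, β < p.h) : Wq q H = Wq p H := by
  ext t
  constructor
  · intro ht B hB
    exact ht B (fun β hβ => ⟨(hB β hβ).1, by rw [kq_congr h (hH β (hB β hβ).1)]; exact (hB β hβ).2⟩)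
  · intro ht B hB
    exact ht B (fun β hβ => ⟨(hB β hβ).1, by rw [← kq_congr h (hH β (hB β hβ).1)]; exact (hB β hβ).2⟩)

lemma wq_open (q : QC) (H : Finset Pr) : IsOpen (Wq q H) := by
  classical
  rw [isOpen_iff_forall_mem_open]
  intro t ht
  refine ⟨⋂ β ∈ ((supp H).filter (fun β => t ∉ Kq q β) : Set Ω1), (Kq q β)ᶜ, ?_, ?_, ?_⟩
  · intro t' ht' B hB
    refine ht B (fun β hβ => ⟨(hB β hβ).1, ?_⟩)
    by_contra hcon
    have h1 := Set.mem_iInter₂.mp ht' β (Finset.mem_coe.mpr (Finset.mem_filter.mpr ⟨(hB β hβ).1, hcon⟩))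
    exact h1 (hB β hβ).2
  · exact (Finset.finite_toSet _).isOpen_biInter (fun β _ => (kq_closed q β).isOpen_compl)
  · refine Set.mem_iInter₂.mpr (fun β hβ => ?_)
    exact (Finset.mem_filter.mp (Finset.mem_coe.mp hβ)).2

lemma cb_nonempty : (TopologicalSpace.countableBasis Tp).Nonempty := by
  obtain ⟨V, hV, _, _⟩ := (TopologicalSpace.isBasis_countableBasis Tp).exists_subset_of_mem_open (Set.mem_univ (0 : Tp))
    isOpen_univ
  exact ⟨V, hV⟩

/-- A countable basis of the unit interval. -/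
noncomputable def bs (n : ℕ) : Set Tp :=
  ((TopologicalSpace.countable_countableBasis Tp).exists_eq_range cb_nonempty).choose n

lemma bs_range : TopologicalSpace.countableBasis Tp = Set.range bs :=
  ((TopologicalSpace.countable_countableBasis Tp).exists_eq_range cb_nonempty).choose_spec

lemma bs_open (n : ℕ) : IsOpen (bs n) :=
  TopologicalSpace.isOpen_of_mem_countableBasis (by rw [bs_range]; exact ⟨n, rfl⟩)

lemma exists_bs {U : Set Tp} (hU : IsOpen U) {t : Tp} (ht : t ∈ U) : ∃ n, t ∈ bs n ∧ bs n ⊆ U := by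
  obtain ⟨V, hV, h1, h2⟩ := (TopologicalSpace.isBasis_countableBasis Tp).exists_subset_of_mem_open ht hU
  rw [bs_range] at hV
  obtain ⟨n, rfl⟩ := hV
  exact ⟨n, h1, h2⟩

/-- A finite set of pairs forced by `q` which covers the basic open set `bs n`. -/
def Wt (S : Pr → Set QC) (n : ℕ) (q : QC) (H : Finset Pr) : Prop :=
  (∀ c ∈ H, q ∈ S c) ∧ (∀ β ∈ supp H, β < q.h) ∧ bs n ⊆ Wq q H

/-- The conditions forcing that `bs n` is covered. -/
def GS (S : Pr → Set QC) (n : ℕ) : Set QC := {q | ∃ H, Wt S n q H}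

lemma gs_mono {S : Pr → Set QC} (hS : ∀ c p q, p ∈ S c → q ≤ p → q ∈ S c) (n : ℕ) (p q : QC) (h : p ∈ GS S n)
    (hq : q ≤ p) : q ∈ GS S n := by
  obtain ⟨H, h1, h2, h3⟩ := h
  exact ⟨H, fun c hc => hS c p q (h1 c hc) hq, fun β hβ => (h2 β hβ).trans_le hq.1, by rw [wq_congr hq h2]; exact h3⟩

/-- The points of `A` which may belong to a set with the parameter `t`. -/
def At (q : QC) (t : Tp) : Set Ω1 := {β | β < q.h ∧ t ∈ Kq q β}

/-- The finite sets outside of `A` which complete the pair `c`. -/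
def Cpl (S : Pr → Set QC) (A : Set Ω1) (c : Pr) (q : QC) (H' : Finset Ω1) : Prop :=
  (∀ β ∈ H', β ∉ A ∧ β < q.h) ∧ q ∈ S (c.1, by classical exact c.2 ∪ H')

/-- The conditions forcing that `c` can be completed outside of `A`. -/
def SA (S : Pr → Set QC) (A : Set Ω1) (c : Pr) : Set QC := {q | ∃ H', Cpl S A c q H'}

lemma sa_mono {S : Pr → Set QC} (hS : ∀ c p q, p ∈ S c → q ≤ p → q ∈ S c) (A : Set Ω1) (c : Pr) (p q : QC)
    (h : p ∈ SA S A c) (hq : q ≤ p) : q ∈ SA S A c := by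
  obtain ⟨H', h1, h2⟩ := h
  exact ⟨H', fun β hβ => ⟨(h1 β hβ).1, (h1 β hβ).2.trans_le hq.1⟩, hS _ _ _ h2 hq⟩

/-- The conditions deciding all pairs of finite subsets of `A`. -/
def DA (S : Pr → Set QC) (A : Set Ω1) : Set QC :=
  {q | ∀ c : Pr, (∀ β ∈ c.1, β ∈ A) → (∀ β ∈ c.2, β ∈ A) → q ∈ SA S A c ∨ ∀ r ≤ q, r ∉ SA S A c}

/-- Countably many open sets can be decided. -/
lemma decide_ctb {ι : Type} {A : Set ι} (hA : A.Countable) (S : ι → Set QC) (hS : ∀ i p q, p ∈ S i → q ≤ p → q ∈ S i)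
    (p : QC) : ∃ q ≤ p, ∀ i ∈ A, q ∈ S i ∨ ∀ r ≤ q, r ∉ S i := by
  rcases A.eq_empty_or_nonempty with rfl | hne
  · exact ⟨p, le_rfl, fun i hi => hi.elim⟩
  obtain ⟨e, rfl⟩ := hA.exists_eq_range hne
  obtain ⟨q, h1, h2⟩ := Sig.dAll_dense qc_closed (fun n => S (e n)) (fun n p q h h' => hS _ _ _ h h') p
  refine ⟨q, h2, ?_⟩
  rintro _ ⟨n, rfl⟩
  exact h1 n

lemma da_dense {S : Pr → Set QC} (hS : ∀ c p q, p ∈ S c → q ≤ p → q ∈ S c) {A : Set Ω1} (hA : A.Countable) (p : QC) :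
    ∃ q ∈ DA S A, q ≤ p := by
  classical
  have hc : {c : Pr | (∀ β ∈ c.1, β ∈ A) ∧ ∀ β ∈ c.2, β ∈ A}.Countable := by
    have hA' : Countable ↥A := hA.to_subtype
    have h1 : {F : Finset Ω1 | ∀ β ∈ F, β ∈ A}.Countable := by
      let g : Finset ↥A → Finset Ω1 := fun J => J.map (Function.Embedding.subtype _)
      refine (Set.countable_range g).mono ?_
      intro J hJ
      refine ⟨J.attach.map ⟨fun c => ⟨c.1, hJ c.1 c.2⟩, fun a b hab => by
        have := congrArg (fun z : ↥A => z.1) hab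
        exact Subtype.ext this⟩, ?_⟩
      ext c
      simp [g]
      exact fun h => hJ c h
    exact (h1.prod h1).mono (fun c hc => hc)
  obtain ⟨q, h1, h2⟩ := decide_ctb hc (SA S A) (sa_mono hS A) p
  exact ⟨q, fun c hc1 hc2 => h2 c ⟨hc1, hc2⟩, h1⟩

/-- Closure properties of `N` used for finite covers. -/
structure ClOk (N : Set (Un QC)) : Prop where
  nat : ∀ n : ℕ, InT N n
  dt : ∀ t : Tp, InT N t → InT N (Dt t)
  at' : ∀ t : Tp, InT N t → ∀ q : QC, InT N q → InT N (At q t)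
  da : ∀ S : Pr → Set QC, InT N S → ∀ A : Set Ω1, InT N A → InT N (DA S A)
  rc : ∀ S : Pr → Set QC, InT N S → ∀ A : Set Ω1, InT N A → ∀ q : QC, InT N q →
    (∃ B, B ⊆ A ∧ ∀ c : Pr, (∀ β ∈ c.1, β ∈ A) → (∀ β ∈ c.2, β ∈ A) → q ∈ SA S A c → ¬ Mt c B) →
    ∃ B, (B ⊆ A ∧ ∀ c : Pr, (∀ β ∈ c.1, β ∈ A) → (∀ β ∈ c.2, β ∈ A) → q ∈ SA S A c → ¬ Mt c B) ∧ InT N B
  gs : ∀ S : Pr → Set QC, InT N S → InT N (GS S)
  gsw : ∀ S : Pr → Set QC, InT N S → ∀ n, ∀ q : QC, InT N q → q ∈ GS S n → ∃ H, Wt S n q H ∧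
    ∀ c ∈ H, InT N c ∧ (∀ β ∈ c.1, InT N β) ∧ ∀ β ∈ c.2, InT N β
  pt : ∀ Z : Set ℕ, InT N Z → (∃ t, ∀ n ∈ Z, t ∉ bs n) → ∃ t, (∀ n ∈ Z, t ∉ bs n) ∧ InT N t

lemma clOk_club : ∀ᶠ N in club (Un QC), ClOk N := by
  have h1 : ∀ᶠ N in club (Un QC), ∀ t : Tp, InT N t → InT N (Dt t) := diagT (fun t => club_inT _)
  have h2 : ∀ᶠ N in club (Un QC), ∀ t : Tp, InT N t → ∀ q : QC, InT N q → InT N (At q t) :=
    diagT (fun t => diagT (fun q => club_inT _))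
  have h3 : ∀ᶠ N in club (Un QC), ∀ S : Pr → Set QC, InT N S → ∀ A : Set Ω1, InT N A → InT N (DA S A) :=
    diagT (fun t => diagT (fun q => club_inT _))
  have h4 : ∀ᶠ N in club (Un QC), ∀ S : Pr → Set QC, InT N S → ∀ A : Set Ω1, InT N A → ∀ q : QC, InT N q →
      (∃ B, B ⊆ A ∧ ∀ c : Pr, (∀ β ∈ c.1, β ∈ A) → (∀ β ∈ c.2, β ∈ A) → q ∈ SA S A c → ¬ Mt c B) →
      ∃ B, (B ⊆ A ∧ ∀ c : Pr, (∀ β ∈ c.1, β ∈ A) → (∀ β ∈ c.2, β ∈ A) → q ∈ SA S A c → ¬ Mt c B) ∧ InT N B := by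
    refine diagT (fun S => diagT (fun A => diagT (fun q => ?_)))
    by_cases h : ∃ B, B ⊆ A ∧ ∀ c : Pr, (∀ β ∈ c.1, β ∈ A) → (∀ β ∈ c.2, β ∈ A) → q ∈ SA S A c → ¬ Mt c B
    · obtain ⟨y, hy⟩ := h
      exact (club_inT y).mono (fun N hN _ => ⟨y, hy, hN⟩)
    · exact Filter.Eventually.of_forall (fun N h' => (h h').elim)
  have h5 : ∀ᶠ N in club (Un QC), ∀ S : Pr → Set QC, InT N S → InT N (GS S) := diagT (fun t => club_inT _)
  have h6 : ∀ᶠ N in club (Un QC), ∀ S : Pr → Set QC, InT N S → ∀ n, ∀ q : QC, InT N q → q ∈ GS S n →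
      ∃ H, Wt S n q H ∧ ∀ c ∈ H, InT N c ∧ (∀ β ∈ c.1, InT N β) ∧ ∀ β ∈ c.2, InT N β := by
    refine diagT (fun S => club_all (fun n => diagT (fun q => ?_)))
    by_cases h : q ∈ GS S n
    · obtain ⟨H, hH⟩ := h
      filter_upwards [club_all (fun c : H => club_inT c.1), club_all (fun c : H => club_all (fun β : c.1.1 => club_inT β.1)),
        club_all (fun c : H => club_all (fun β : c.1.2 => club_inT β.1))] with N a1 a2 a3 _
      exact ⟨H, hH, fun c hc => ⟨a1 ⟨c, hc⟩, fun β hβ => a2 ⟨c, hc⟩ ⟨β, hβ⟩, fun β hβ => a3 ⟨c, hc⟩ ⟨β, hβ⟩⟩⟩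
    · exact Filter.Eventually.of_forall (fun N h' => (h h').elim)
  have h7 : ∀ᶠ N in club (Un QC), ∀ Z : Set ℕ, InT N Z → (∃ t, ∀ n ∈ Z, t ∉ bs n) →
      ∃ t, (∀ n ∈ Z, t ∉ bs n) ∧ InT N t := by
    refine diagT (fun Z => ?_)
    by_cases h : ∃ t, ∀ n ∈ Z, t ∉ bs n
    · obtain ⟨y, hy⟩ := h
      exact (club_inT y).mono (fun N hN _ => ⟨y, hy, hN⟩)
    · exact Filter.Eventually.of_forall (fun N h' => (h h').elim)
  filter_upwards [club_all (fun n : ℕ => club_inT n), h1, h2, h3, h4, h5, h6, h7] with N a1 a2 a3 a4 a5 a6 a7 a8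
  exact ⟨a1, a2, a3, a4, a5, a6, a7, a8⟩

/-- Compactness of the power set of `A`. -/
lemma pow_compact {A : Set Ω1} {R : Set Pr} (hR : ∀ c ∈ R, (∀ β ∈ c.1, β ∈ A) ∧ ∀ β ∈ c.2, β ∈ A)
    (hcov : ∀ B ⊆ A, ∃ c ∈ R, Mt c B) : ∃ R0 : Finset Pr, (∀ c ∈ R0, c ∈ R) ∧ ∀ B ⊆ A, ∃ c ∈ R0, Mt c B := by
  classical
  let K : Set (Ω1 → Bool) := {f | ∀ β, β ∉ A → f β = false}
  have hK : IsCompact K := by
    have : K = ⋂ (β : Ω1) (_ : β ∉ A), {f : Ω1 → Bool | f β = false} := by ext f; simp [K]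
    rw [this]
    exact (isClosed_iInter (fun β => isClosed_iInter (fun _ => isClosed_eq (by fun_prop) continuous_const))).isCompact
  let Oc : Pr → Set (Ω1 → Bool) := fun c => {f | (∀ β ∈ c.1, f β = true) ∧ ∀ β ∈ c.2, f β = false}
  have hOc : ∀ c, IsOpen (Oc c) := by
    intro c
    have : Oc c = (⋂ β ∈ (c.1 : Set Ω1), {f : Ω1 → Bool | f β = true}) ∩
        ⋂ β ∈ (c.2 : Set Ω1), {f : Ω1 → Bool | f β = false} := by ext f; simp [Oc]
    rw [this]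
    refine IsOpen.inter ((Finset.finite_toSet _).isOpen_biInter (fun β _ => ?_))
      ((Finset.finite_toSet _).isOpen_biInter (fun β _ => ?_))
    · have h : IsOpen ((fun f : Ω1 → Bool => f β) ⁻¹' {true}) := (isOpen_discrete _).preimage (continuous_apply β)
      exact h
    · have h : IsOpen ((fun f : Ω1 → Bool => f β) ⁻¹' {false}) := (isOpen_discrete _).preimage (continuous_apply β)
      exact h
  have hcv : K ⊆ ⋃ c ∈ R, Oc c := by
    intro f hf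
    obtain ⟨c, hc, h1, h2⟩ := hcov {β | f β = true} (fun β hβ => by
      by_contra hcon
      have := hf β hcon
      rw [show f β = true from hβ] at this
      exact absurd this (by decide))
    exact Set.mem_biUnion hc ⟨h1, fun β hβ => by simpa using h2 β hβ⟩
  obtain ⟨b', hb', hfin, hsub⟩ := hK.elim_finite_subcover_image (fun c _ => hOc c) hcv
  refine ⟨hfin.toFinset, fun c hc => hb' (hfin.mem_toFinset.mp hc), fun B hB => ?_⟩
  have hf : (fun β => decide (β ∈ B)) ∈ K := fun β hβ => by simp; exact fun h => hβ (hB h)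
  obtain ⟨c, hc, h1, h2⟩ := Set.mem_iUnion₂.mp (hsub hf)
  exact ⟨c, hfin.mem_toFinset.mpr hc, fun β hβ => by simpa using h1 β hβ, fun β hβ => by simpa using h2 β hβ⟩

section
variable {N : Set (Un QC)} {G : Set QC} (sok : SOk N) (bo : BOk N) (cl : ClOk N) (gen : GenF N G)

include sok bo cl gen in
/-- Finite covers of the compact space. -/
theorem fcov {S : Pr → Set QC} (hS : ∀ c p q, p ∈ S c → q ≤ p → q ∈ S c) (hSN : InT N S)
    (hcov : ∀ B : Set Ω1, InT N B → Ht G (SX B) → ∃ c : Pr, InT N c ∧ (∀ β ∈ c.1, InT N β) ∧ (∀ β ∈ c.2, InT N β) ∧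
      Mt c B ∧ Ht G (S c)) :
    ∃ H : Finset Pr, (∀ c ∈ H, InT N c ∧ (∀ β ∈ c.1, InT N β) ∧ (∀ β ∈ c.2, InT N β) ∧ Ht G (S c)) ∧
      ∀ B : Set Ω1, Ht G (SX B) → ∃ c ∈ H, Mt c B := by
  classical
  -- the points are covered
  have step1 : ∀ t : Tp, InT N t → ∃ n, t ∈ bs n ∧ Ht G (GS S n) := by
    intro t ht
    obtain ⟨q1, hq1, b, hb, hbt⟩ := gen.gen _ (cl.dt t ht) (dt_dense t)
    have hAN := cl.at' t ht q1 (gen.sub q1 hq1)
    have hout : ∀ q ≤ q1, ∀ β, q1.h ≤ β → t ∉ Kq q β := by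
      intro q hq β hβ
      have h1 : q.s b = t := (hq.2 b hb).trans hbt
      rw [← h1]
      exact kq_miss q (hb.le.trans hβ)
    have hAc : (At q1 t).Countable := (om1_Iio q1.h).mono (fun β hβ => hβ.1)
    obtain ⟨q2, hq2, hdec⟩ := gen.gen _ (cl.da S hSN _ hAN) (da_dense hS hAc)
    obtain ⟨q3, hq3, h31, h32⟩ := gen.dir q1 hq1 q2 hq2
    have hdecA : ∀ c : Pr, (∀ β ∈ c.1, β ∈ At q1 t) → (∀ β ∈ c.2, β ∈ At q1 t) → Ht G (SA S (At q1 t) c) →
        q2 ∈ SA S (At q1 t) c := by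
      rintro c h1 h2 ⟨r, hr, h3⟩
      rcases hdec c h1 h2 with h | h
      · exact h
      · obtain ⟨s, _, h6, h7⟩ := gen.dir q2 hq2 r hr
        exact (h s h6 (sa_mono hS _ _ _ _ h3 h7)).elim
    let R : Set Pr := {c | (∀ β ∈ c.1, β ∈ At q1 t) ∧ (∀ β ∈ c.2, β ∈ At q1 t) ∧ q2 ∈ SA S (At q1 t) c}
    have hR : ∀ B ⊆ At q1 t, ∃ c ∈ R, Mt c B := by
      by_contra hcon
      push Not at hcon
      obtain ⟨B0, hB0, hB0'⟩ := hcon
      obtain ⟨B, ⟨hBA, hB⟩, hBN⟩ := cl.rc S hSN _ hAN q2 (gen.sub q2 hq2) ⟨B0, hB0, fun c h1 h2 h3 => hB0' c ⟨h1, h2, h3⟩⟩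
      have hBX : Ht G (SX B) := ⟨q1, hq1, fun β hβ => (hBA hβ).1, t, fun β hβ => (hBA hβ).2⟩
      obtain ⟨c, hcN, hc1, hc2, hMt, r, hr, hrS⟩ := hcov B hBN hBX
      obtain ⟨r2, hr2, hr2h⟩ := exists_high bo gen c.2 hc2
      obtain ⟨r3, hr3, h5, h6⟩ := gen.dir r hr r2 hr2
      refine hB (c.1, c.2.filter (fun β => β ∈ At q1 t)) (fun β hβ => hBA (hMt.1 β hβ))
        (fun β hβ => (Finset.mem_filter.mp hβ).2) (hdecA _ (fun β hβ => hBA (hMt.1 β hβ))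
        (fun β hβ => (Finset.mem_filter.mp hβ).2) ⟨r3, hr3, c.2.filter (fun β => β ∉ At q1 t), ?_, ?_⟩)
        ⟨hMt.1, fun β hβ => hMt.2 β (Finset.mem_of_mem_filter β hβ)⟩
      · intro β hβ
        obtain ⟨h7, h8⟩ := Finset.mem_filter.mp hβ
        exact ⟨h8, (hr2h β h7).trans_le h6.1⟩
      · have : c.2.filter (fun β => β ∈ At q1 t) ∪ c.2.filter (fun β => β ∉ At q1 t) = c.2 :=
          Finset.filter_union_filter_not_eq _ _
        show r3 ∈ S (c.1, c.2.filter (fun β => β ∈ At q1 t) ∪ c.2.filter (fun β => β ∉ At q1 t))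
        rw [this]
        exact hS _ _ _ hrS h5
    obtain ⟨R0, hR0, hR1⟩ := pow_compact (A := At q1 t) (R := R) (fun c hc => ⟨hc.1, hc.2.1⟩) hR
    choose! H' hH' using fun (c : Pr) (hc : c ∈ R0) => (hR0 c hc).2.2
    let H : Finset Pr := R0.image (fun c => (c.1, c.2 ∪ H' c))
    have hsupp : ∀ β ∈ supp H, β < q3.h := by
      intro β hβ
      obtain ⟨c', hc', hβc⟩ := mem_supp.mp hβ
      obtain ⟨c, hc, rfl⟩ := Finset.mem_image.mp hc'
      rcases hβc with h | h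
      · exact ((hR0 c hc).1 β h).1.trans_le h31.1
      · rcases Finset.mem_union.mp h with h | h
        · exact ((hR0 c hc).2.1 β h).1.trans_le h31.1
        · exact ((hH' c hc).1 β h).2.trans_le h32.1
    have htW : t ∈ Wq q3 H := by
      intro B hB
      have hBA : B ⊆ At q1 t := by
        intro β hβ
        have h1 : β < q1.h := by
          by_contra hcon
          push Not at hcon
          exact hout q3 h31 β hcon (hB β hβ).2
        exact ⟨h1, by rw [← kq_congr h31 h1]; exact (hB β hβ).2⟩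
      obtain ⟨c, hc, hM⟩ := hR1 B hBA
      refine ⟨_, Finset.mem_image_of_mem _ hc, hM.1, fun β hβ => ?_⟩
      rcases Finset.mem_union.mp hβ with h | h
      · exact hM.2 β h
      · exact fun hβB => ((hH' c hc).1 β h).1 (hBA hβB)
    obtain ⟨n, hn1, hn2⟩ := exists_bs (wq_open q3 H) htW
    refine ⟨n, hn1, q3, hq3, H, fun c' hc' => ?_, hsupp, hn2⟩
    obtain ⟨c, hc, rfl⟩ := Finset.mem_image.mp hc'
    exact hS _ _ _ (hH' c hc).2 h32
  obtain ⟨q, hq, hd⟩ := decide_open qc_closed sok gen (cl.gs S hSN) (fun n p q h h' => gs_mono hS n p q h h')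
  have hZN := sok.ev _ (cl.gs S hSN) q (gen.sub q hq)
  have hall : ∀ t : Tp, ∃ n, q ∈ GS S n ∧ t ∈ bs n := by
    by_contra hcon
    push Not at hcon
    obtain ⟨t0, ht0⟩ := hcon
    obtain ⟨t, ht, htN⟩ := cl.pt _ hZN ⟨t0, fun n hn => ht0 n hn⟩
    obtain ⟨n, hn1, hn2⟩ := step1 t htN
    exact ht n ((hd n).1.mp hn2) hn1
  obtain ⟨Z, hZ⟩ := (isCompact_univ (X := Tp)).elim_finite_subcover (fun n : {n : ℕ // q ∈ GS S n} => bs n.1)
    (fun n => bs_open n.1) (fun t _ => by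
      obtain ⟨n, hn1, hn2⟩ := hall t
      exact Set.mem_iUnion.mpr ⟨⟨n, hn1⟩, hn2⟩)
  choose Hn hHn1 hHn2 using fun n : {n : ℕ // q ∈ GS S n} => cl.gsw S hSN n.1 q (gen.sub q hq) n.2
  refine ⟨Z.biUnion Hn, fun c hc => ?_, fun B hB => ?_⟩
  · obtain ⟨n, _, hn⟩ := Finset.mem_biUnion.mp hc
    obtain ⟨h1, h2, h3⟩ := hHn2 n c hn
    exact ⟨h1, h2, h3, q, hq, (hHn1 n).1 c hn⟩
  · obtain ⟨r, hr, h1, t, ht⟩ := hB
    obtain ⟨n, hn, htn⟩ := Set.mem_iUnion₂.mp (hZ (Set.mem_univ t))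
    obtain ⟨s, _, h6, h7⟩ := gen.dir q hq r hr
    obtain ⟨_, h8, h9⟩ := hHn1 n
    have htW : t ∈ Wq s (Hn n) := by
      rw [wq_congr h6 h8]
      exact h9 htn
    obtain ⟨c, hc, hM⟩ := htW {β | β ∈ B ∧ β ∈ supp (Hn n)} (fun β hβ => ⟨hβ.2, by
      rw [kq_congr h7 (h1 β hβ.1)]; exact ht β hβ.1⟩)
    refine ⟨c, Finset.mem_biUnion.mpr ⟨n, hn, hc⟩, fun β hβ => (hM.1 β hβ).1, fun β hβ hβB => ?_⟩
    exact hM.2 β hβ ⟨hβB, mem_supp.mpr ⟨c, hc, Or.inr hβ⟩⟩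

end

end Pool.Agent.H55.Tig
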