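import Pool.Agent.H55.Tig.T3

set_option autoImplicit false
set_option linter.all false

/-!
# The space of the model is compact; the closed and open subsets
-/

namespace Pool.Agent.H55.Tig

open Pool.Agent.H12.Jayne Pool.Agent.H55.Lav Pool.Agent.H55.SC Pool.Agent.H55.ZFU Pool.Agent.H55.Sig Pool.Agent.H55.CS
open Pool.Agent.H55.TG Pool.Agent.H55.Jay

/-- The conditions forcing that all sets matching `c` belong to `τ`. -/
def Fo (τ : Nm QC) (c : Pr) : Set QC := {q | ∀ B : Set Ω1, Mt c B → ∀ r ≤ q, r ∈ SX B → fmem (sN B) τ r}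

/-- The conditions forcing that all sets matching `c` belong to some member of `τ`. -/
def Fo2 (τ : Nm QC) (c : Pr) : Set QC := {q | ∃ i : τ.ι, q ≤ τ.c i ∧ q ∈ Fo (τ.A i) c}

lemma fo_mono {τ : Nm QC} {c : Pr} {p q : QC} (h : p ∈ Fo τ c) (hq : q ≤ p) : q ∈ Fo τ c :=
  fun B hB r hr hS => h B hB r (hr.trans hq) hS

lemma fo2_mono {τ : Nm QC} {c : Pr} {p q : QC} (h : p ∈ Fo2 τ c) (hq : q ≤ p) : q ∈ Fo2 τ c := by
  obtain ⟨i, h1, h2⟩ := h
  exact ⟨i, hq.trans h1, fo_mono h2 hq⟩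

/-- A set refuting the inclusion. -/
def Rf (τ : Nm QC) (c : Pr) (q : QC) (B : Set Ω1) : Prop := Mt c B ∧ q ∈ SX B ∧ ∀ r ≤ q, ¬ fmem (sN B) τ r

/-- The conditions deciding the inclusion. -/
def Dc (τ : Nm QC) (c : Pr) : Set QC := {q | q ∈ Fo τ c ∨ ∃ B, Rf τ c q B}

lemma dc_dense (τ : Nm QC) (c : Pr) (p : QC) : ∃ q ∈ Dc τ c, q ≤ p := by
  by_cases h : p ∈ Fo τ c
  · exact ⟨p, Or.inl h, le_rfl⟩
  · have h' : ∃ B : Set Ω1, Mt c B ∧ ∃ r ≤ p, r ∈ SX B ∧ ¬ fmem (sN B) τ r := by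
      by_contra hcon
      push Not at hcon
      exact h (fun y hy r hr hS => hcon y hy r hr hS)
    obtain ⟨y, h1, r, h2, h3, h4⟩ := h'
    have h5 : ∃ q ≤ r, ∀ s ≤ q, ¬ fmem (sN y) τ s := by
      by_contra hcon
      push Not at hcon
      exact h4 (fmem_dense hcon)
    obtain ⟨q, h6, h7⟩ := h5
    exact ⟨q, Or.inr ⟨y, h1, sx_mono h3 h6, h7⟩, h6.trans h2⟩

open Classical in
/-- The sets whose trace on `F` belongs to `b`. -/
def Zf (F : Finset Ω1) (b : Finset (Finset Ω1)) : Set (Set Ω1) := {B | F.filter (fun β => β ∈ B) ∈ b}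

/-- Closure properties of `N` used for inclusions. -/
structure FoOk (N : Set (Un QC)) : Prop where
  fo2 : ∀ τ : Nm QC, InN N τ → InT N (Fo2 τ)
  two : ∀ τ : Nm QC, InN N τ → ∀ σ : Nm QC, InN N σ → InT N (fun c => Fo τ c ∪ Fo σ c)
  dc : ∀ τ : Nm QC, InN N τ → ∀ c : Pr, InT N c → InT N (Dc τ c)
  dw : ∀ τ : Nm QC, InN N τ → ∀ c : Pr, InT N c → ∀ q : QC, InT N q → (∃ B, Rf τ c q B) → ∃ B, Rf τ c q B ∧ InT N B
  f2 : ∀ τ : Nm QC, InN N τ → ∀ c : Pr, InT N c → ∀ q : QC, InT N q → (∃ i : τ.ι, q ≤ τ.c i ∧ q ∈ Fo (τ.A i) c) →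
    ∃ i : τ.ι, (q ≤ τ.c i ∧ q ∈ Fo (τ.A i) c) ∧ InN N (τ.A i) ∧ InT N (τ.c i)
  finp : ∀ α : Ω1, InT N α → ∀ c : Pr, (∀ β ∈ c.1, β < α) → (∀ β ∈ c.2, β < α) → InT N c
  zf : ∀ α : Ω1, InT N α → ∀ F : Finset Ω1, (∀ β ∈ F, β < α) → ∀ b : Finset (Finset Ω1), (∀ P ∈ b, P ⊆ F) → InT N (Zf F b)

lemma foOk_club : ∀ᶠ N in club (Un QC), FoOk N := by
  classical
  have h6 : ∀ᶠ N in club (Un QC), ∀ τ : Nm QC, InN N τ → InT N (Fo2 τ) := diagN (fun τ => club_inT _)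
  have h5 : ∀ᶠ N in club (Un QC), ∀ τ : Nm QC, InN N τ → ∀ σ : Nm QC, InN N σ → InT N (fun c => Fo τ c ∪ Fo σ c) :=
    diagN (fun τ => diagN (fun σ => club_inT _))
  have h7 : ∀ᶠ N in club (Un QC), ∀ τ : Nm QC, InN N τ → ∀ c : Pr, InT N c → InT N (Dc τ c) :=
    diagN (fun τ => diagT (fun c => club_inT _))
  have h8 : ∀ᶠ N in club (Un QC), ∀ τ : Nm QC, InN N τ → ∀ c : Pr, InT N c → ∀ q : QC, InT N q →
      (∃ y, Rf τ c q y) → ∃ y, Rf τ c q y ∧ InT N y := by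
    refine diagN (fun τ => diagT (fun c => diagT (fun q => ?_)))
    by_cases h : ∃ y, Rf τ c q y
    · obtain ⟨y, hy⟩ := h
      exact (club_inT y).mono (fun N hN _ => ⟨y, hy, hN⟩)
    · exact Filter.Eventually.of_forall (fun N h' => (h h').elim)
  have h9 : ∀ᶠ N in club (Un QC), ∀ τ : Nm QC, InN N τ → ∀ c : Pr, InT N c → ∀ q : QC, InT N q →
      (∃ i : τ.ι, q ≤ τ.c i ∧ q ∈ Fo (τ.A i) c) →
        ∃ i : τ.ι, (q ≤ τ.c i ∧ q ∈ Fo (τ.A i) c) ∧ InN N (τ.A i) ∧ InT N (τ.c i) := by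
    refine diagN (fun τ => diagT (fun c => diagT (fun q => ?_)))
    by_cases h : ∃ i : τ.ι, q ≤ τ.c i ∧ q ∈ Fo (τ.A i) c
    · obtain ⟨i, hi⟩ := h
      filter_upwards [club_inN (τ.A i), club_inT (τ.c i)] with N h1 h2 _
      exact ⟨i, hi, h1, h2⟩
    · exact Filter.Eventually.of_forall (fun N h' => (h h').elim)
  have h10 : ∀ᶠ N in club (Un QC), ∀ α : Ω1, InT N α → ∀ c : Pr, (∀ β ∈ c.1, β < α) → (∀ β ∈ c.2, β < α) → InT N c := by
    refine diagT (fun α => ?_)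
    have hc := countable_finset_below α
    have : Countable {c : Pr | (∀ β ∈ c.1, β < α) ∧ ∀ β ∈ c.2, β < α} :=
      ((hc.prod hc).mono (fun c hc => hc)).to_subtype
    exact (club_all (fun c : {c : Pr | (∀ β ∈ c.1, β < α) ∧ ∀ β ∈ c.2, β < α} => club_inT c.1)).mono
      (fun N hN c h1 h2 => hN ⟨c, h1, h2⟩)
  have h11 : ∀ᶠ N in club (Un QC), ∀ α : Ω1, InT N α → ∀ F : Finset Ω1, (∀ β ∈ F, β < α) → ∀ b : Finset (Finset Ω1),
      (∀ P ∈ b, P ⊆ F) → InT N (Zf F b) := by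
    refine diagT (fun α => ?_)
    have hc : Countable {F : Finset Ω1 | ∀ β ∈ F, β < α} := (countable_finset_below α).to_subtype
    have := club_all (Ω := Un QC) (fun F : {F : Finset Ω1 | ∀ β ∈ F, β < α} =>
      club_all (fun b : ↥(F.1.powerset.powerset) => club_inT (Zf F.1 b.1)))
    refine this.mono (fun N hN F hF b hb => hN ⟨F, hF⟩ ⟨b, ?_⟩)
    rw [Finset.mem_powerset]
    intro P hP
    exact Finset.mem_powerset.mpr (hb P hP)
  filter_upwards [h6, h5, h7, h8, h9, h10, h11] with N a1 a2 a3 a4 a5 a6 a7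
  exact ⟨a1, a2, a3, a4, a5, a6, a7⟩

section
variable {N : Set (Un QC)} {G : Set QC} (ok : NOk N) (fok : FOk N) (zok : ZOk N) (sok : SOk N) (ook : OOk N)
  (bo : BOk N) (cl : ClOk N) (fo : FoOk N) (gen : GenF N G)

include ok fo gen in
/-- The forcing theorem for inclusions. -/
lemma fo_iff {τ : Nm QC} (hτ : InN N τ) {c : Pr} (hc : InT N c) : Ht G (Fo τ c) ↔
    ∀ B (h : InT N B), Ht G (SX B) → Mt c B → EE (bv bo G h) (vl G hτ) := by
  constructor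
  · rintro ⟨q, hq, hF⟩ y h ⟨r, hr, hS⟩ hev
    obtain ⟨s, hs, h1, h2⟩ := gen.dir q hq r hr
    exact (val_mem ok gen (bo.bfn.fn y h) hτ).mpr ⟨s, hs, hF y hev s h1 (sx_mono hS h2)⟩
  · intro H
    obtain ⟨q, hq, h⟩ := gen.gen _ (fo.dc τ hτ c hc) (dc_dense τ c)
    rcases h with h | h
    · exact ⟨q, hq, h⟩
    · exfalso
      obtain ⟨y, ⟨h1, h2, h3⟩, h4⟩ := fo.dw τ hτ c hc q (gen.sub q hq) h
      obtain ⟨r, hr, h5⟩ := (val_mem ok gen (bo.bfn.fn y h4) hτ).mp (H y h4 ⟨q, hq, h2⟩ h1)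
      obtain ⟨s, _, h6, h7⟩ := gen.dir q hq r hr
      exact h3 s h6 (fmem_mono h5 h7)

include ok fo gen in
lemma fo2_iff {τ : Nm QC} (hτ : InN N τ) {c : Pr} (hc : InT N c) : Ht G (Fo2 τ c) ↔
    ∃ O : MM N G, EE O (vl G hτ) ∧ ∀ B (h : InT N B), Ht G (SX B) → Mt c B → EE (bv bo G h) O := by
  constructor
  · rintro ⟨q, hq, hF⟩
    obtain ⟨i, ⟨h1, h2⟩, h3, h4⟩ := fo.f2 τ hτ c hc q (gen.sub q hq) hF
    exact ⟨vl G h3, mem_val.mpr ⟨i, h3, gen.up q hq _ h1 h4, rfl⟩, (fo_iff ok bo fo gen h3 hc).mp ⟨q, hq, h2⟩⟩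
  · rintro ⟨O, hO, H⟩
    obtain ⟨i, h1, h2, h3⟩ := mem_val.mp hO
    have e : O = vl G h1 := Subtype.ext h3.symm
    subst e
    obtain ⟨q, hq, h4⟩ := (fo_iff ok bo fo gen h1 hc).mpr H
    obtain ⟨r, hr, h5, h6⟩ := gen.dir q hq _ h2
    exact ⟨r, hr, i, h6, fo_mono h4 h5⟩

include bo fo gen in
/-- The pair given by a neighbourhood. -/
lemma pair_of_sem {O : MM N G} (hO : Sem bo O) {B : Set Ω1} (hB : InT N B) (hBO : EE (bv bo G hB) O) :
    ∃ c : Pr, InT N c ∧ (∀ β ∈ c.1, InT N β) ∧ (∀ β ∈ c.2, InT N β) ∧ Mt c B ∧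
      ∀ B' (h' : InT N B'), Ht G (SX B') → Mt c B' → EE (bv bo G h') O := by
  classical
  obtain ⟨F, hF, h3⟩ := hO.2 B hB hBO
  obtain ⟨q, hq, hh⟩ := exists_high bo gen F hF
  refine ⟨(F.filter (fun β => β ∈ B), F.filter (fun β => β ∉ B)), ?_, ?_, ?_, ⟨?_, ?_⟩, ?_⟩
  · exact fo.finp q.h (bo.hts q (gen.sub q hq)) _ (fun β hβ => hh β (Finset.mem_of_mem_filter β hβ))
      (fun β hβ => hh β (Finset.mem_of_mem_filter β hβ))
  · exact fun β hβ => hF β (Finset.mem_of_mem_filter β hβ)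
  · exact fun β hβ => hF β (Finset.mem_of_mem_filter β hβ)
  · exact fun β hβ => (Finset.mem_filter.mp hβ).2
  · exact fun β hβ => (Finset.mem_filter.mp hβ).2
  · intro B' hB' hS' hM
    refine h3 B' hB' hS' (fun i hi => ⟨fun h => hM.1 i (Finset.mem_filter.mpr ⟨hi, h⟩), fun h => ?_⟩)
    by_contra hcon
    exact hM.2 i (Finset.mem_filter.mpr ⟨hi, hcon⟩) h

include ok fok sok ook cl fo gen in
/-- Open covers have finite subcovers. -/
theorem compact : IsCompact (EE (N := N) (G := G)) (ww G zok) (kk G ook) (XM bo G) := by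
  classical
  intro U hU hcov
  obtain ⟨τ, hτ, e⟩ := U.2
  have e' : U = vl G hτ := Subtype.ext e.symm
  subst e'
  obtain ⟨H, hH1, hH2⟩ := fcov sok bo cl gen (fun c p q h h' => fo2_mono h h') (fo.fo2 τ hτ) (fun B hB hS => by
    have hX := (bv_mem_XM ok ook bo gen hB).mpr hS
    obtain ⟨O, hO, hBO⟩ := hcov _ hX
    have hOs : Sem bo O := (opM_iff ok fok zok ook bo gen).mp (hU O hO)
    obtain ⟨c, h1, h2, h3, h4, h5⟩ := pair_of_sem bo fo gen hOs hB hBO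
    exact ⟨c, h1, h2, h3, h4, (fo2_iff ok bo fo gen hτ h1).mpr ⟨O, hO, h5⟩⟩)
  have hch : ∀ c : H, ∃ O : MM N G, EE O (vl G hτ) ∧ ∀ B (h : InT N B), Ht G (SX B) → Mt c.1 B → EE (bv bo G h) O :=
    fun c => (fo2_iff ok bo fo gen hτ (hH1 c.1 c.2).1).mp (hH1 c.1 c.2).2.2.2
  choose O hO1 hO2 using hch
  have Hf := Pool.Agent.H55.Jay.exists_fin ok fok zok gen (H.attach.toList.map O)
  obtain ⟨V, hV1, hV2⟩ := Hf
  refine ⟨V, fun z hz => ?_, hV2, fun x hx => ?_⟩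
  · rw [hV1] at hz
    obtain ⟨c, _, rfl⟩ := List.mem_map.mp hz
    exact hO1 c
  · obtain ⟨B, hB, hS, rfl⟩ := (mem_XM bo gen).mp hx
    obtain ⟨c, hc, hM⟩ := hH2 B hS
    exact ⟨O ⟨c, hc⟩, (hV1 _).mpr (List.mem_map.mpr ⟨⟨c, hc⟩, by simp, rfl⟩), hO2 ⟨c, hc⟩ B hB hS hM⟩

/-- In the model, `U` is a closed and open subset of the compact space. -/
def CpM (U : MM N G) : Prop := IsClopenIn (EE (N := N) (G := G)) (ww G zok) (kk G ook) (XM bo G) U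

include ok fok ook bo gen in
lemma clop_zf {F : Finset Ω1} (hF : ∀ β ∈ F, InT N β) {b : Finset (Finset Ω1)} (hZ : InT N (Zf F b)) :
    CpM zok ook bo (kv bo G hZ) := by
  classical
  have htop := top_mem ok gen
  have hfil : ∀ B B' : Set Ω1, (∀ i ∈ F, (i ∈ B ↔ i ∈ B')) → (B ∈ Zf F b ↔ B' ∈ Zf F b) := by
    intro B B' h
    have : F.filter (fun β => β ∈ B) = F.filter (fun β => β ∈ B') := Finset.filter_congr h
    show F.filter (fun β => β ∈ B) ∈ b ↔ F.filter (fun β => β ∈ B') ∈ b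
    rw [this]
  constructor
  · refine (opM_iff ok fok zok ook bo gen).mpr ⟨fun z hz => ?_, fun B hB hBO => ⟨F, hF, fun B' hB' hS' hag => ?_⟩⟩
    · obtain ⟨B, hB, h1, _, rfl⟩ := (mem_kv bo gen hZ).mp hz
      exact (bv_mem_XM ok ook bo gen hB).mpr h1
    · exact (bv_mem_kv ok ook bo gen hZ hB').mpr ⟨hS', (hfil B B' hag).mp ((bv_mem_kv ok ook bo gen hZ hB).mp hBO).2⟩
  · intro V hV
    refine (opM_iff ok fok zok ook bo gen).mpr ⟨fun z hz => ((hV z).mp hz).1, fun B hB hBO => ⟨F, hF, fun B' hB' hS' hag => ?_⟩⟩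
    obtain ⟨h1, h2⟩ := (hV _).mp hBO
    refine (hV _).mpr ⟨(bv_mem_XM ok ook bo gen hB').mpr hS', fun h3 => h2 ?_⟩
    exact (bv_mem_kv ok ook bo gen hZ hB).mpr ⟨(bv_mem_XM ok ook bo gen hB).mp h1,
      (hfil B B' hag).mpr ((bv_mem_kv ok ook bo gen hZ hB').mp h3).2⟩

include ok fok sok ook cl fo gen in
/-- Every closed and open set is given by a finite set of coordinates. -/
theorem exists_zf {U : MM N G} (hU : CpM zok ook bo U) : ∃ F : Finset Ω1, (∀ β ∈ F, InT N β) ∧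
    ∃ b : Finset (Finset Ω1), (∀ P ∈ b, P ⊆ F) ∧ ∃ hZ : InT N (Zf F b), U = kv bo G hZ := by
  classical
  have htop := top_mem ok gen
  letI := mdl ok fok zok gen
  haveI : ZFU.Pure (MM N G) := zPure (zf ok fok zok gen)
  have hU1 : Sem bo U := (opM_iff ok fok zok ook bo gen).mp hU.1
  have hd : ∀ x, EE x (diff (XM bo G) U) ↔ EE x (XM bo G) ∧ ¬ EE x U := fun x => by
    have h3 : x ∈ diff (XM bo G) U ↔ x ∈ XM bo G ∧ x ∉ U := mem_diff
    exact h3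
  have hV1 : Sem bo (diff (XM bo G) U) := (opM_iff ok fok zok ook bo gen).mp (hU.2 _ hd)
  obtain ⟨τ, hτ, e⟩ := U.2
  have e' : U = vl G hτ := Subtype.ext e.symm
  obtain ⟨σ, hσ, e2⟩ := (diff (XM bo G) U).2
  have e2' : diff (XM bo G) U = vl G hσ := Subtype.ext e2.symm
  rw [e2'] at hd hV1
  have hm : ∀ c p q, p ∈ Fo τ c ∪ Fo σ c → q ≤ p → q ∈ Fo τ c ∪ Fo σ c := by
    intro c p q h h'
    rcases h with h | h
    · exact Or.inl (fo_mono h h')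
    · exact Or.inr (fo_mono h h')
  obtain ⟨H, hH1, hH2⟩ := fcov sok bo cl gen hm (fo.two τ hτ σ hσ) (fun B hB hS => by
    have hX := (bv_mem_XM ok ook bo gen hB).mpr hS
    by_cases hBU : EE (bv bo G hB) U
    · obtain ⟨c, h1, h2, h3, h4, h5⟩ := pair_of_sem bo fo gen hU1 hB hBU
      rw [e'] at h5
      obtain ⟨r, hr, h6⟩ := (fo_iff ok bo fo gen hτ h1).mpr h5
      exact ⟨c, h1, h2, h3, h4, r, hr, Or.inl h6⟩
    · obtain ⟨c, h1, h2, h3, h4, h5⟩ := pair_of_sem bo fo gen hV1 hB ((hd _).mpr ⟨hX, hBU⟩)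
      obtain ⟨r, hr, h6⟩ := (fo_iff ok bo fo gen hσ h1).mpr h5
      exact ⟨c, h1, h2, h3, h4, r, hr, Or.inr h6⟩)
  have hF : ∀ β ∈ supp H, InT N β := by
    intro β hβ
    obtain ⟨c, hc, h | h⟩ := mem_supp.mp hβ
    · exact (hH1 c hc).2.1 β h
    · exact (hH1 c hc).2.2.1 β h
  let b : Finset (Finset Ω1) := (supp H).powerset.filter (fun P => ∃ c ∈ H, Mt c (P : Set Ω1) ∧ Ht G (Fo τ c))
  have hb : ∀ P ∈ b, P ⊆ supp H := fun P hP => Finset.mem_powerset.mp (Finset.mem_of_mem_filter P hP)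
  obtain ⟨q, hq, hh⟩ := exists_high bo gen _ hF
  have hZ : InT N (Zf (supp H) b) := fo.zf q.h (bo.hts q (gen.sub q hq)) _ hh b hb
  refine ⟨supp H, hF, b, hb, hZ, mm_ext (fun z => ?_)⟩
  have key : ∀ B (hB : InT N B), Ht G (SX B) → (EE (bv bo G hB) U ↔ B ∈ Zf (supp H) b) := by
    intro B hB hS
    constructor
    · intro hBU
      obtain ⟨c, hc, hM⟩ := hH2 B hS
      have h1 : Ht G (Fo τ c) := by
        obtain ⟨r, hr, h | h⟩ := (hH1 c hc).2.2.2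
        · exact ⟨r, hr, h⟩
        · exact (((hd _).mp ((fo_iff ok bo fo gen hσ (hH1 c hc).1).mp ⟨r, hr, h⟩ B hB hS hM)).2 hBU).elim
      show (supp H).filter (fun β => β ∈ B) ∈ b
      refine Finset.mem_filter.mpr ⟨Finset.mem_powerset.mpr (Finset.filter_subset _ _), c, hc, ⟨fun β hβ => ?_, fun β hβ h => ?_⟩, h1⟩
      · exact Finset.mem_coe.mpr (Finset.mem_filter.mpr ⟨mem_supp.mpr ⟨c, hc, Or.inl hβ⟩, hM.1 β hβ⟩)
      · exact hM.2 β hβ (Finset.mem_filter.mp (Finset.mem_coe.mp h)).2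
    · intro h
      obtain ⟨_, c, hc, hM, h1⟩ := Finset.mem_filter.mp h
      rw [e']
      refine (fo_iff ok bo fo gen hτ (hH1 c hc).1).mp h1 B hB hS ⟨fun β hβ => ?_, fun β hβ hβB => ?_⟩
      · exact (Finset.mem_filter.mp (Finset.mem_coe.mp (hM.1 β hβ))).2
      · exact hM.2 β hβ (Finset.mem_coe.mpr (Finset.mem_filter.mpr ⟨mem_supp.mpr ⟨c, hc, Or.inr hβ⟩, hβB⟩))
  constructor
  · intro hz
    obtain ⟨B, hB, hS, rfl⟩ := (mem_XM bo gen).mp (hU1.1 z hz)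
    exact (bv_mem_kv ok ook bo gen hZ hB).mpr ⟨hS, (key B hB hS).mp hz⟩
  · intro hz
    obtain ⟨B, hB, hS, hBZ, rfl⟩ := (mem_kv bo gen hZ).mp hz
    exact (key B hB hS).mpr hBZ

end

end Pool.Agent.H55.Tig
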