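import Pool.Agent.H55.Tig.T4

set_option autoImplicit false
set_option linter.all false

/-!
# Countable tightness
-/

namespace Pool.Agent.H55.Tig

open Pool.Agent.H12.Jayne Pool.Agent.H55.Lav Pool.Agent.H55.SC Pool.Agent.H55.ZFU Pool.Agent.H55.Sig Pool.Agent.H55.CS
open Pool.Agent.H55.TG Pool.Agent.H55.Jay

/-- The conditions forcing that `σ` has a member which agrees with `A` on `F`. -/
def Ns (σ : Nm QC) (A : Set Ω1) (F : Finset Ω1) : Set QC :=
  {q | ∃ B : Set Ω1, (∀ β ∈ B, β < q.h) ∧ (∀ i ∈ F, (i ∈ A ↔ i ∈ B)) ∧ fmem (sN B) σ q}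

lemma ns_mono {σ : Nm QC} {A : Set Ω1} (F : Finset Ω1) (p q : QC) (h : p ∈ Ns σ A F) (hq : q ≤ p) : q ∈ Ns σ A F := by
  obtain ⟨B, h1, h2, h3⟩ := h
  exact ⟨B, fun β hβ => (h1 β hβ).trans_le hq.1, h2, fmem_mono h3 hq⟩

/-- The sequence `B` of members of `σ` accumulates at `A`. -/
def Ac (σ : Nm QC) (A : Set Ω1) (q : QC) (B : ℕ → Set Ω1) : Prop :=
  (∀ n, fmem (sN (B n)) σ q) ∧ ∀ F : Finset Ω1, ∃ n, ∀ i ∈ F, (i ∈ A ↔ i ∈ B n)

/-- The conditions deciding whether `A` is in the closure of `σ`. -/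
def Es (σ : Nm QC) (A : Set Ω1) : Set QC := {q | (∃ F, ∀ r ≤ q, r ∉ Ns σ A F) ∨ ∃ B, Ac σ A q B}

lemma es_dense (σ : Nm QC) {A : Set Ω1} (hA : A.Countable) (p : QC) : ∃ q ∈ Es σ A, q ≤ p := by
  classical
  by_cases hcase : ∃ q ≤ p, ∃ F, ∀ r ≤ q, r ∉ Ns σ A F
  · obtain ⟨q, hq, F, hF⟩ := hcase
    exact ⟨q, Or.inl ⟨F, hF⟩, hq⟩
  push Not at hcase
  obtain ⟨α, hα⟩ := om1_bound hA
  have step : ∀ q : QC, ∃ q' : QC, q ≤ p → q' ≤ q ∧ ∀ F : Finset Ω1, (∀ β ∈ F, β < q.h) → q' ∈ Ns σ A F := by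
    intro q
    by_cases hqp : q ≤ p
    · obtain ⟨q1, h1, h2⟩ := decide_ctb (countable_finset_below q.h) (Ns σ A) (fun F p q h h' => ns_mono F p q h h') q
      refine ⟨q1, fun _ => ⟨h1, fun F hF => ?_⟩⟩
      rcases h2 F hF with h | h
      · exact h
      · obtain ⟨r, hr, hr'⟩ := hcase q1 (h1.trans hqp) F
        exact (h r hr hr').elim
    · exact ⟨q, fun h => absurd h hqp⟩
  choose nx hnx using step
  obtain ⟨p0, hp0, hα0⟩ := exists_higher p α
  let s : ℕ → QC := fun n => Nat.rec p0 (fun _ q => nx q) n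
  have hs : ∀ n, s (n + 1) = nx (s n) := fun n => rfl
  have hsp : ∀ n, s n ≤ p := by
    intro n
    induction n with
    | zero => exact hp0
    | succ n ih => rw [hs]; exact (hnx (s n) ih).1.trans ih
  have hsd : ∀ n, s (n + 1) ≤ s n := fun n => (hnx (s n) (hsp n)).1
  obtain ⟨u, hu1, hu2⟩ := exists_lim hsd
  have hmono : ∀ m n, m ≤ n → (s m).h ≤ (s n).h := fun m n hmn => (qc_anti hsd hmn).1
  have hfin : ∀ F : Finset Ω1, (∀ b ∈ F, b < u.h) → ∃ n, ∀ b ∈ F, b < (s n).h := by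
    intro F
    induction F using Finset.induction_on with
    | empty => intro _; exact ⟨0, by simp⟩
    | insert a F _ ih =>
      intro hF
      obtain ⟨n, hn⟩ := ih (fun b hb => hF b (Finset.mem_insert_of_mem hb))
      obtain ⟨m, hm⟩ := hu2 a (hF a (Finset.mem_insert_self _ _))
      refine ⟨max n m, fun b hb => ?_⟩
      rcases Finset.mem_insert.mp hb with h | h
      · rw [h]; exact hm.trans_le (hmono _ _ (le_max_right _ _))
      · exact (hn b h).trans_le (hmono _ _ (le_max_left _ _))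
  have hall : ∀ F : Finset Ω1, (∀ b ∈ F, b < u.h) → u ∈ Ns σ A F := by
    intro F hF
    obtain ⟨n, hn⟩ := hfin F hF
    exact ns_mono F _ _ ((hnx (s n) (hsp n)).2 F hn) (hu1 (n + 1))
  have hne : {F : Finset Ω1 | ∀ β ∈ F, β < u.h}.Nonempty := ⟨∅, by simp⟩
  obtain ⟨e, he⟩ := (countable_finset_below u.h).exists_eq_range hne
  have hen : ∀ n, ∀ β ∈ e n, β < u.h := fun n => by
    have : e n ∈ {F : Finset Ω1 | ∀ β ∈ F, β < u.h} := by rw [he]; exact ⟨n, rfl⟩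
    exact this
  choose B hB1 hB2 hB3 using fun n => hall (e n) (hen n)
  refine ⟨u, Or.inr ⟨B, hB3, fun F => ?_⟩, (hu1 0).trans hp0⟩
  have : F.filter (fun β => β < u.h) ∈ {F : Finset Ω1 | ∀ β ∈ F, β < u.h} := fun β hβ => (Finset.mem_filter.mp hβ).2
  rw [he] at this
  obtain ⟨n, hn⟩ := this
  refine ⟨n, fun i hi => ?_⟩
  by_cases h : i < u.h
  · exact hB2 n i (by rw [hn]; exact Finset.mem_filter.mpr ⟨hi, h⟩)
  · constructor
    · intro hiA
      exact (h ((hα i hiA).trans (hα0.trans_le (hu1 0).1))).elim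
    · intro hiB
      exact (h (hB1 n i hiB)).elim

/-- Closure properties of `N` used for tightness. -/
structure EsOk (N : Set (Un QC)) : Prop where
  es : ∀ σ : Nm QC, InN N σ → ∀ A : Set Ω1, InT N A → InT N (Es σ A)
  e1 : ∀ σ : Nm QC, InN N σ → ∀ A : Set Ω1, InT N A → ∀ q : QC, InT N q → (∃ F, ∀ r ≤ q, r ∉ Ns σ A F) →
    ∃ F, (∀ r ≤ q, r ∉ Ns σ A F) ∧ ∀ β ∈ F, InT N β
  e2 : ∀ σ : Nm QC, InN N σ → ∀ A : Set Ω1, InT N A → ∀ q : QC, InT N q → (∃ B, Ac σ A q B) →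
    ∃ B, Ac σ A q B ∧ InT N B ∧ ∀ n, InT N (B n)
  fr : ∀ B : ℕ → Set Ω1, InT N B → FnOk N (fun n : ℕ => sN (B n))
  ff : ∀ B : ℕ → Set Ω1, InT N B → FnOk N (fun n : ℕ => opN (ck QC n) (sN (B n)))
  en : ∀ B : Set Ω1, InT N B → (B.Countable ∧ B.Nonempty) → ∃ f : ℕ → Ω1, Set.range f = B ∧ InT N f ∧ ∀ n, InT N (f n)
  fo : ∀ f : ℕ → Ω1, InT N f → FnOk N (fun n : ℕ => opN (ck QC n) (ck QC (f n)))

lemma esOk_club : ∀ᶠ N in club (Un QC), EsOk N := by
  have h1 : ∀ᶠ N in club (Un QC), ∀ σ : Nm QC, InN N σ → ∀ A : Set Ω1, InT N A → InT N (Es σ A) :=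
    diagN (fun σ => diagT (fun A => club_inT _))
  have h2 : ∀ᶠ N in club (Un QC), ∀ σ : Nm QC, InN N σ → ∀ A : Set Ω1, InT N A → ∀ q : QC, InT N q →
      (∃ F, ∀ r ≤ q, r ∉ Ns σ A F) → ∃ F, (∀ r ≤ q, r ∉ Ns σ A F) ∧ ∀ β ∈ F, InT N β := by
    refine diagN (fun σ => diagT (fun A => diagT (fun q => ?_)))
    by_cases h : ∃ F, ∀ r ≤ q, r ∉ Ns σ A F
    · obtain ⟨F, hF⟩ := h
      exact (club_all (fun β : F => club_inT β.1)).mono (fun N hN _ => ⟨F, hF, fun β hβ => hN ⟨β, hβ⟩⟩)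
    · exact Filter.Eventually.of_forall (fun N h' => (h h').elim)
  have h3 : ∀ᶠ N in club (Un QC), ∀ σ : Nm QC, InN N σ → ∀ A : Set Ω1, InT N A → ∀ q : QC, InT N q →
      (∃ B, Ac σ A q B) → ∃ B, Ac σ A q B ∧ InT N B ∧ ∀ n, InT N (B n) := by
    refine diagN (fun σ => diagT (fun A => diagT (fun q => ?_)))
    by_cases h : ∃ B, Ac σ A q B
    · obtain ⟨B, hB⟩ := h
      filter_upwards [club_inT B, club_all (fun n => club_inT (B n))] with N a1 a2 _
      exact ⟨B, hB, a1, a2⟩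
    · exact Filter.Eventually.of_forall (fun N h' => (h h').elim)
  have h4 : ∀ᶠ N in club (Un QC), ∀ B : ℕ → Set Ω1, InT N B → FnOk N (fun n : ℕ => sN (B n)) :=
    diagT (fun B => fnOk_club _)
  have h5 : ∀ᶠ N in club (Un QC), ∀ B : ℕ → Set Ω1, InT N B → FnOk N (fun n : ℕ => opN (ck QC n) (sN (B n))) :=
    diagT (fun B => fnOk_club _)
  have h6 : ∀ᶠ N in club (Un QC), ∀ B : Set Ω1, InT N B → (B.Countable ∧ B.Nonempty) →
      ∃ f : ℕ → Ω1, Set.range f = B ∧ InT N f ∧ ∀ n, InT N (f n) := by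
    refine diagT (fun B => ?_)
    by_cases h : B.Countable ∧ B.Nonempty
    · obtain ⟨f, hf⟩ := h.1.exists_eq_range h.2
      filter_upwards [club_inT f, club_all (fun n => club_inT (f n))] with N a1 a2 _
      exact ⟨f, hf.symm, a1, a2⟩
    · exact Filter.Eventually.of_forall (fun N h' => (h h').elim)
  have h7 : ∀ᶠ N in club (Un QC), ∀ f : ℕ → Ω1, InT N f → FnOk N (fun n : ℕ => opN (ck QC n) (ck QC (f n))) :=
    diagT (fun B => fnOk_club _)
  filter_upwards [h1, h2, h3, h4, h5, h6, h7] with N a1 a2 a3 a4 a5 a6 a7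
  exact ⟨a1, a2, a3, a4, a5, a6, a7⟩

section gen0
variable {Q : Type} [Preorder Q] [OrderTop Q] {N : Set (Un Q)} {G : Set Q} (ok : NOk N) (fok : FOk N) (zok : ZOk N)
  (gen : GenF N G)

include ok fok gen in
/-- Sets enumerated by a sequence of names are countable in the model. -/
lemma isCountable_of (nat : ∀ n : ℕ, InT N n) {e : ℕ → Nm Q} (he : ∀ n, InN N (e n))
    (hf : FnOk N (fun n : ℕ => opN (ck Q n) (e n))) {b : MM N G} (hb : ∀ z, EE z b ↔ ∃ n, z = vl G (he n)) :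
    IsCountable (EE (N := N) (G := G)) (ww G zok) b := by
  have htop := top_mem ok gen
  have hs : ∀ n : ℕ, InT N n → InN N (ck Q n) := fun n _ => zok.nat n
  have ht : ∀ n : ℕ, InT N n → InN N (e n) := fun n _ => he n
  have hrel : ∀ n x, Rel (EE (N := N) (G := G)) (vl G hf.rg) (nv G zok n) x ↔ x = vl G (he n) := by
    intro n x
    rw [rel_rg ok fok zok gen hs ht hf]
    constructor
    · rintro ⟨m, hm, h3, h4⟩
      have : n = m := nv_inj (zok := zok) htop h3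
      subst this
      exact h4
    · rintro rfl
      exact ⟨n, nat n, rfl, rfl⟩
  refine Or.inr ⟨vl G hf.rg, ⟨fun p hp => ?_, fun x hx => ?_⟩, fun y hy => ?_⟩
  · obtain ⟨n, hn, rfl⟩ := (mem_rg htop hf).mp hp
    exact ⟨nv G zok n, vl G (he n), (mem_ww htop).mpr ⟨n, rfl⟩, (hb _).mpr ⟨n, rfl⟩, op_pair ok zok gen (zok.nat n) (he n)⟩
  · obtain ⟨n, rfl⟩ := (mem_ww htop).mp hx
    exact ⟨_, (hrel n _).mpr rfl, fun y hy => (hrel n y).mp hy⟩
  · obtain ⟨n, rfl⟩ := (hb y).mp hy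
    exact ⟨nv G zok n, (mem_ww htop).mpr ⟨n, rfl⟩, (hrel n _).mpr rfl⟩

end gen0

section
variable {N : Set (Un QC)} {G : Set QC} (ok : NOk N) (fok : FOk N) (zok : ZOk N) (sok : SOk N) (ook : OOk N)
  (bo : BOk N) (cl : ClOk N) (fo : FoOk N) (es : EsOk N) (gen : GenF N G)

include ok fok ook bo cl es gen in
lemma countable_bv {B : Set Ω1} (hB : InT N B) (hS : Ht G (SX B)) :
    IsCountable (EE (N := N) (G := G)) (ww G zok) (bv bo G hB) := by
  have htop := top_mem ok gen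
  obtain ⟨q, hq, h1, _⟩ := hS
  have hc : B.Countable := (om1_Iio q.h).mono (fun β hβ => h1 β hβ)
  rcases B.eq_empty_or_nonempty with rfl | hne
  · left
    intro x hx
    obtain ⟨β, _, h, _⟩ := (mem_bv ook bo htop hB).mp hx
    exact h
  · obtain ⟨f, hf1, hf2, hf3⟩ := es.en B hB ⟨hc, hne⟩
    refine isCountable_of ok fok zok gen cl.nat (e := fun n => ck QC (f n)) (fun n => ook.ck _ (hf3 n)) (es.fo f hf2) (fun z => ?_)
    rw [mem_bv ook bo htop hB]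
    constructor
    · rintro ⟨β, h, hβ, rfl⟩
      rw [← hf1] at hβ
      obtain ⟨n, rfl⟩ := hβ
      exact ⟨n, rfl⟩
    · rintro ⟨n, rfl⟩
      exact ⟨f n, hf3 n, by rw [← hf1]; exact ⟨n, rfl⟩, rfl⟩

include ok fok ook fo cl es gen in
/-- The compact space of the model is countably tight. -/
theorem tight : IsCountablyTight (EE (N := N) (G := G)) (ww G zok) (kk G ook) (XM bo G) := by
  classical
  have htop := top_mem ok gen
  intro S A hSX hAX hcl
  obtain ⟨A0, hA0, hAS, rfl⟩ := (mem_XM bo gen).mp hAX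
  obtain ⟨σ, hσ, e⟩ := S.2
  have e' : S = vl G hσ := Subtype.ext e.symm
  subst e'
  have hAc : A0.Countable := by
    obtain ⟨q, _, h1, _⟩ := hAS
    exact (om1_Iio q.h).mono (fun β hβ => h1 β hβ)
  obtain ⟨q, hq, hE⟩ := gen.gen _ (es.es σ hσ A0 hA0) (es_dense σ hAc)
  rcases hE with hE | hE
  · exfalso
    obtain ⟨F, hF, hFN⟩ := es.e1 σ hσ A0 hA0 q (gen.sub q hq) hE
    obtain ⟨r1, hr1, hr1h⟩ := exists_high bo gen F hFN
    have hZ : InT N (Zf F {F.filter (fun β => β ∈ A0)}) := fo.zf r1.h (bo.hts r1 (gen.sub r1 hr1)) F hr1h _ (by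
      intro P hP
      rw [Finset.mem_singleton] at hP
      rw [hP]; exact Finset.filter_subset _ _)
    have hop := (clop_zf ok fok zok ook bo gen hFN hZ).1
    obtain ⟨z, hzS, hzO⟩ := hcl _ hop ((bv_mem_kv ok ook bo gen hZ hA0).mpr ⟨hAS, by
      show F.filter (fun β => β ∈ A0) ∈ ({F.filter (fun β => β ∈ A0)} : Finset (Finset Ω1))
      exact Finset.mem_singleton_self _⟩)
    obtain ⟨B, hB, hBS, hBZ, rfl⟩ := (mem_kv bo gen hZ).mp hzO
    have hBZ' : F.filter (fun β => β ∈ B) = F.filter (fun β => β ∈ A0) := Finset.mem_singleton.mp hBZ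
    obtain ⟨r2, hr2, h2⟩ := (val_mem ok gen (bo.bfn.fn B hB) hσ).mp hzS
    obtain ⟨r3, hr3, h3⟩ := hBS
    obtain ⟨r4, hr4, h4, h5⟩ := gen.dir q hq r2 hr2
    obtain ⟨r5, hr5, h6, h7⟩ := gen.dir r4 hr4 r3 hr3
    refine hF r5 (h6.trans h4) ⟨B, fun β hβ => (h3.1 β hβ).trans_le h7.1, fun i hi => ?_, fmem_mono h2 (h6.trans h5)⟩
    constructor
    · intro hiA
      have : i ∈ F.filter (fun β => β ∈ A0) := Finset.mem_filter.mpr ⟨hi, hiA⟩
      rw [← hBZ'] at this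
      exact (Finset.mem_filter.mp this).2
    · intro hiB
      have : i ∈ F.filter (fun β => β ∈ B) := Finset.mem_filter.mpr ⟨hi, hiB⟩
      rw [hBZ'] at this
      exact (Finset.mem_filter.mp this).2
  · obtain ⟨B, ⟨hB1, hB2⟩, hBN, hBn⟩ := es.e2 σ hσ A0 hA0 q (gen.sub q hq) hE
    have hr := es.fr B hBN
    have hmem : ∀ z : MM N G, EE z (vl G hr.rg) ↔ ∃ n, z = bv bo G (hBn n) := by
      intro z
      rw [mem_rg htop hr]
      constructor
      · rintro ⟨n, _, rfl⟩; exact ⟨n, rfl⟩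
      · rintro ⟨n, rfl⟩; exact ⟨n, cl.nat n, rfl⟩
    have hin : ∀ n, EE (bv bo G (hBn n)) (vl G hσ) := fun n =>
      (val_mem ok gen (bo.bfn.fn _ (hBn n)) hσ).mpr ⟨q, hq, hB1 n⟩
    refine ⟨vl G hr.rg, fun z hz => ?_, ?_, fun O hO hAO => ?_⟩
    · obtain ⟨n, rfl⟩ := (hmem z).mp hz
      exact hin n
    · exact isCountable_of ok fok zok gen cl.nat (e := fun n => sN (B n)) (fun n => bo.bfn.fn _ (hBn n)) (es.ff B hBN) hmem
    · have hOs : Sem bo O := (opM_iff ok fok zok ook bo gen).mp hO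
      obtain ⟨F, hF, h3⟩ := hOs.2 A0 hA0 hAO
      obtain ⟨n, hn⟩ := hB2 F
      exact ⟨_, (hmem _).mpr ⟨n, rfl⟩, h3 _ (hBn n) ((bv_mem_XM ok ook bo gen (hBn n)).mp (hSX _ (hin n))) hn⟩

end

end Pool.Agent.H55.Tig
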