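import Pool.Agent.H55.Tig.T5

set_option autoImplicit false
set_option linter.all false

/-!
# The measures
-/

namespace Pool.Agent.H55.Tig

open Pool.Agent.H12.Jayne Pool.Agent.H55.Lav Pool.Agent.H55.SC Pool.Agent.H55.ZFU Pool.Agent.H55.Sig Pool.Agent.H55.CS
open Pool.Agent.H55.TG Pool.Agent.H55.Jay MeasureTheory

/-- Codes of closed and open sets. -/
abbrev Cd : Type := Finset Ω1 × Finset (Finset Ω1)

open Classical in
/-- The part of `F` in `Γ` belonging to the set with the parameter `t`. -/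
noncomputable def tr (Γ : Set Ω1) (q : QC) (F : Finset Ω1) (t : Tp) : Finset Ω1 := F.filter (fun β => β ∈ Γ ∧ t ∈ Kq q β)

lemma mem_tr {Γ : Set Ω1} {q : QC} {F : Finset Ω1} {t : Tp} {β : Ω1} :
    β ∈ tr Γ q F t ↔ β ∈ F ∧ β ∈ Γ ∧ t ∈ Kq q β := by
  classical
  unfold tr
  rw [Finset.mem_filter]

lemma mem_zf {F : Finset Ω1} {b : Finset (Finset Ω1)} {B : Set Ω1} {P : Finset Ω1}
    (hP : ∀ β, β ∈ P ↔ β ∈ F ∧ β ∈ B) : B ∈ Zf F b ↔ P ∈ b := by
  classical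
  have : F.filter (fun β => β ∈ B) = P := by
    ext β
    rw [hP, Finset.mem_filter]
  show F.filter (fun β => β ∈ B) ∈ b ↔ P ∈ b
  rw [this]

/-- The measure of the set with the code `c`. -/
noncomputable def mu (Γ : Set Ω1) (q : QC) (c : Cd) : ℝ := volume.real {t : Tp | tr Γ q c.1 t ∈ c.2}

lemma tr_meas (Γ : Set Ω1) (q : QC) (F : Finset Ω1) (b : Finset (Finset Ω1)) : MeasurableSet {t : Tp | tr Γ q F t ∈ b} := by
  classical
  have h1 : ∀ P : Finset Ω1, MeasurableSet {t : Tp | tr Γ q F t = P} := by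
    intro P
    by_cases hP : P ⊆ F
    · have : {t : Tp | tr Γ q F t = P} = ⋂ β ∈ F, {t : Tp | (β ∈ Γ ∧ t ∈ Kq q β) ↔ β ∈ P} := by
        ext t
        simp only [Set.mem_iInter]
        constructor
        · rintro ht β hβ
          have ht' : tr Γ q F t = P := ht
          show (β ∈ Γ ∧ t ∈ Kq q β) ↔ β ∈ P
          rw [← ht']
          unfold tr
          rw [Finset.mem_filter]
          exact ⟨fun h => ⟨hβ, h⟩, fun h => h.2⟩
        · intro h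
          show tr Γ q F t = P
          unfold tr
          ext β
          rw [Finset.mem_filter]
          constructor
          · rintro ⟨h1, h2⟩; exact (h β h1).mp h2
          · intro h1; exact ⟨hP h1, (h β (hP h1)).mpr h1⟩
      rw [this]
      refine Finset.measurableSet_biInter _ (fun β _ => ?_)
      by_cases h2 : β ∈ Γ <;> by_cases h3 : β ∈ P
      · have : {t : Tp | (β ∈ Γ ∧ t ∈ Kq q β) ↔ β ∈ P} = Kq q β := by ext t; simp [h2, h3]
        rw [this]; exact (kq_closed q β).measurableSet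
      · have : {t : Tp | (β ∈ Γ ∧ t ∈ Kq q β) ↔ β ∈ P} = (Kq q β)ᶜ := by ext t; simp [h2, h3]
        rw [this]; exact (kq_closed q β).measurableSet.compl
      · have : {t : Tp | (β ∈ Γ ∧ t ∈ Kq q β) ↔ β ∈ P} = ∅ := by ext t; simp [h2, h3]
        rw [this]; exact MeasurableSet.empty
      · have : {t : Tp | (β ∈ Γ ∧ t ∈ Kq q β) ↔ β ∈ P} = Set.univ := by ext t; simp [h2, h3]
        rw [this]; exact MeasurableSet.univ
    · have : {t : Tp | tr Γ q F t = P} = ∅ := by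
        ext t
        simp only [Set.mem_empty_iff_false, iff_false]
        intro ht
        have ht' : tr Γ q F t = P := ht
        apply hP
        rw [← ht']
        exact Finset.filter_subset _ _
      rw [this]; exact MeasurableSet.empty
  have : {t : Tp | tr Γ q F t ∈ b} = ⋃ P ∈ b, {t : Tp | tr Γ q F t = P} := by
    ext t; simp
  rw [this]
  exact Finset.measurableSet_biUnion _ (fun P _ => h1 P)

lemma tr_congr {Γ : Set Ω1} {p q : QC} (h : q ≤ p) {F : Finset Ω1} (hF : ∀ β ∈ F, β < p.h) (t : Tp) :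
    tr Γ q F t = tr Γ p F t := by
  classical
  unfold tr
  refine Finset.filter_congr (fun β hβ => ?_)
  rw [kq_congr h (hF β hβ)]

lemma mu_congr {Γ : Set Ω1} {p q : QC} (h : q ≤ p) {c : Cd} (hF : ∀ β ∈ c.1, β < p.h) : mu Γ q c = mu Γ p c := by
  unfold mu
  congr 1
  ext t
  show tr Γ q c.1 t ∈ c.2 ↔ tr Γ p c.1 t ∈ c.2
  rw [tr_congr h hF]

/-- The name of a measure. -/
noncomputable def mN (Γ : Set Ω1) : Nm QC :=
  .mk (Σ c : Cd, {q : QC // ∀ β ∈ c.1, β < q.h}) (fun z => opN (XN (Zf z.1.1 z.1.2)) (cR QC (mu Γ z.2.1 z.1)))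
    (fun z => z.2.1)

/-- The name of the measure with the parameter `γ`. -/
noncomputable def gN (γ : Ω1) : Nm QC := mN (Set.Ioi γ)

/-- The conditions deciding the value of `τ` at `n`. -/
def Sg (τ : Nm QC) (n : ℕ) : Set QC := {q | ∃ γ : Ω1, fmem (opN (ck QC n) (gN γ)) τ q}

/-- Closure properties of `N` used for measures. -/
structure MOk (N : Set (Un QC)) : Prop where
  mN : ∀ Γ : Set Ω1, InT N Γ → InN N (mN Γ)
  zc : ∀ c : Cd, InT N c → InT N (Zf c.1 c.2)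
  ce : ∀ c : Cd, InT N c → ∀ β ∈ c.1, InT N β
  mu : ∀ Γ : Set Ω1, InT N Γ → ∀ q : QC, InT N q → ∀ c : Cd, InT N c → InT N (mu Γ q c)
  mw : ∀ Γ : Set Ω1, InT N Γ → ∀ ρ, InN N ρ → ∀ q : QC, InT N q →
    (∃ c : Cd, (∀ β ∈ c.1, β < q.h) ∧ opN (XN (Zf c.1 c.2)) (cR QC (Tig.mu Γ q c)) = ρ) →
    ∃ c : Cd, ((∀ β ∈ c.1, β < q.h) ∧ opN (XN (Zf c.1 c.2)) (cR QC (Tig.mu Γ q c)) = ρ) ∧ InT N c
  cN : ∀ α : Ω1, InT N α → ∀ F : Finset Ω1, (∀ β ∈ F, β < α) → ∀ b : Finset (Finset Ω1), (∀ P ∈ b, P ⊆ F) →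
    InT N ((F, b) : Cd)
  cf : FnOk N (fun c : Cd => XN (Zf c.1 c.2))
  gf : FnOk N gN
  io : ∀ γ : Ω1, InT N γ → InT N (Set.Ioi γ)
  emp : InT N (∅ : Set Ω1)
  sg : ∀ τ : Nm QC, InN N τ → InT N (Sg τ)
  sq : ∀ τ : Nm QC, InN N τ → ∀ q : QC, InT N q → (∃ g : ℕ → Ω1, ∀ n, fmem (opN (ck QC n) (gN (g n))) τ q) →
    ∃ g : ℕ → Ω1, (∀ n, fmem (opN (ck QC n) (gN (g n))) τ q) ∧ (∀ n, InT N (g n)) ∧ ∃ α, InT N α ∧ ∀ n, g n < α

lemma mOk_club : ∀ᶠ N in club (Un QC), MOk N := by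
  classical
  have h1 : ∀ᶠ N in club (Un QC), ∀ Γ : Set Ω1, InT N Γ → InN N (mN Γ) := diagT (fun Γ => club_inN _)
  have h2 : ∀ᶠ N in club (Un QC), ∀ c : Cd, InT N c → InT N (Zf c.1 c.2) := diagT (fun Γ => club_inT _)
  have h3 : ∀ᶠ N in club (Un QC), ∀ c : Cd, InT N c → ∀ β ∈ c.1, InT N β :=
    diagT (fun c => (club_all (fun β : c.1 => club_inT β.1)).mono (fun N hN β hβ => hN ⟨β, hβ⟩))
  have h4 : ∀ᶠ N in club (Un QC), ∀ Γ : Set Ω1, InT N Γ → ∀ q : QC, InT N q → ∀ c : Cd, InT N c → InT N (mu Γ q c) :=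
    diagT (fun Γ => diagT (fun q => diagT (fun c => club_inT _)))
  have h5 : ∀ᶠ N in club (Un QC), ∀ Γ : Set Ω1, InT N Γ → ∀ ρ, InN N ρ → ∀ q : QC, InT N q →
      (∃ c : Cd, (∀ β ∈ c.1, β < q.h) ∧ opN (XN (Zf c.1 c.2)) (cR QC (Tig.mu Γ q c)) = ρ) →
      ∃ c : Cd, ((∀ β ∈ c.1, β < q.h) ∧ opN (XN (Zf c.1 c.2)) (cR QC (Tig.mu Γ q c)) = ρ) ∧ InT N c := by
    refine diagT (fun Γ => diagN (fun ρ => diagT (fun q => ?_)))
    by_cases h : ∃ c : Cd, (∀ β ∈ c.1, β < q.h) ∧ opN (XN (Zf c.1 c.2)) (cR QC (Tig.mu Γ q c)) = ρ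
    · obtain ⟨y, hy⟩ := h
      exact (club_inT y).mono (fun N hN _ => ⟨y, hy, hN⟩)
    · exact Filter.Eventually.of_forall (fun N h' => (h h').elim)
  have h6 : ∀ᶠ N in club (Un QC), ∀ α : Ω1, InT N α → ∀ F : Finset Ω1, (∀ β ∈ F, β < α) → ∀ b : Finset (Finset Ω1),
      (∀ P ∈ b, P ⊆ F) → InT N ((F, b) : Cd) := by
    refine diagT (fun α => ?_)
    have hc : Countable {F : Finset Ω1 | ∀ β ∈ F, β < α} := (countable_finset_below α).to_subtype
    have := club_all (Ω := Un QC) (fun F : {F : Finset Ω1 | ∀ β ∈ F, β < α} =>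
      club_all (fun b : ↥(F.1.powerset.powerset) => club_inT ((F.1, b.1) : Cd)))
    refine this.mono (fun N hN F hF b hb => hN ⟨F, hF⟩ ⟨b, ?_⟩)
    rw [Finset.mem_powerset]
    intro P hP
    exact Finset.mem_powerset.mpr (hb P hP)
  have h7 : ∀ᶠ N in club (Un QC), ∀ γ : Ω1, InT N γ → InT N (Set.Ioi γ) := diagT (fun γ => club_inT _)
  have h8 : ∀ᶠ N in club (Un QC), ∀ τ : Nm QC, InN N τ → InT N (Sg τ) := diagN (fun γ => club_inT _)
  have h9 : ∀ᶠ N in club (Un QC), ∀ τ : Nm QC, InN N τ → ∀ q : QC, InT N q →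
      (∃ g : ℕ → Ω1, ∀ n, fmem (opN (ck QC n) (gN (g n))) τ q) →
      ∃ g : ℕ → Ω1, (∀ n, fmem (opN (ck QC n) (gN (g n))) τ q) ∧ (∀ n, InT N (g n)) ∧ ∃ α, InT N α ∧ ∀ n, g n < α := by
    refine diagN (fun τ => diagT (fun q => ?_))
    by_cases h : ∃ g : ℕ → Ω1, ∀ n, fmem (opN (ck QC n) (gN (g n))) τ q
    · obtain ⟨g, hg⟩ := h
      obtain ⟨α, hα⟩ := om1_bound (Set.countable_range g)
      filter_upwards [club_inT α, club_all (fun n => club_inT (g n))] with N a1 a2 _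
      exact ⟨g, hg, a2, α, a1, fun n => hα _ ⟨n, rfl⟩⟩
    · exact Filter.Eventually.of_forall (fun N h' => (h h').elim)
  filter_upwards [h1, h2, h3, h4, h5, h6, fnOk_club (fun c : Cd => XN (Zf c.1 c.2)), fnOk_club gN, h7,
    club_inT (∅ : Set Ω1), h8, h9] with N a1 a2 a3 a4 a5 a6 a7 a8 a9 a10 a11 a12
  exact ⟨a1, a2, a3, a4, a5, a6, a7, a8, a9, a10, a11, a12⟩

section
variable {N : Set (Un QC)} {G : Set QC} (ok : NOk N) (fok : FOk N) (zok : ZOk N) (sok : SOk N) (cok : COk N) (ook : OOk N)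
  (re : ReOk N) (bo : BOk N) (cl : ClOk N) (fo : FoOk N) (mo : MOk N) (gen : GenF N G)

/-- The measure in the model. -/
noncomputable def mv (G : Set QC) {Γ : Set Ω1} (h : InT N Γ) : MM N G := vl G (mo.mN Γ h)

lemma kv_congr {Z Z' : Set (Set Ω1)} {h : InT N Z} {h' : InT N Z'} (e : Z = Z') : kv bo G h = kv bo G h' := by
  subst e; rfl

lemma rv_congr {x y : ℝ} {h : InT N x} {h' : InT N y} (e : x = y) : rv G re h = rv G re h' := by
  subst e; rfl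

include ook bo gen in
/-- The points of the space given by `Γ` and `t`. -/
lemma point_of (Γ : Set Ω1) {q : QC} (hq : q ∈ G) {F : Finset Ω1} (hF : ∀ β ∈ F, β < q.h) (t : Tp) :
    ∃ B : Set Ω1, InT N B ∧ Ht G (SX B) ∧ ∀ c : Cd, c.1 ⊆ F → (B ∈ Zf c.1 c.2 ↔ tr Γ q c.1 t ∈ c.2) := by
  classical
  have hqh := bo.hts q (gen.sub q hq)
  refine ⟨(tr Γ q F t : Set Ω1), (bo.fin q.h hqh _ (fun β hβ => hF β (Finset.mem_of_mem_filter β hβ))).2, ?_, fun c hc => ?_⟩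
  · refine ⟨q, hq, fun β hβ => hF β (Finset.mem_of_mem_filter β (Finset.mem_coe.mp hβ)), t, fun β hβ => ?_⟩
    exact (Finset.mem_filter.mp (Finset.mem_coe.mp hβ)).2.2
  · refine mem_zf (fun β => ?_)
    unfold tr
    simp only [Finset.mem_filter, Finset.mem_coe]
    constructor
    · rintro ⟨h1, h2⟩; exact ⟨h1, hc h1, h2⟩
    · rintro ⟨h1, _, h2⟩; exact ⟨h1, h2⟩

include ok fok zok gen in
lemma rel_mv {Γ : Set Ω1} (hΓ : InT N Γ) {U r : MM N G} : Rel (EE (N := N) (G := G)) (mv mo G hΓ) U r ↔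
    ∃ (c : Cd) (hc : InT N c) (q : QC) (hq : q ∈ G), (∀ β ∈ c.1, β < q.h) ∧ U = kv bo G (mo.zc c hc) ∧
      r = rv G re (mo.mu Γ hΓ q (gen.sub q hq) c hc) := by
  have htop := top_mem ok gen
  constructor
  · rintro ⟨p, hp, hpp⟩
    obtain ⟨⟨c', q, hq'⟩, h1, h2, h3⟩ := mem_val.mp hp
    obtain ⟨c, ⟨h4, h5⟩, hc⟩ := mo.mw Γ hΓ _ h1 q (gen.sub q h2) ⟨c', hq', rfl⟩
    have h6 := op_pair ok zok gen (bo.kN _ (mo.zc c hc)) (re.rg.fn _ (mo.mu Γ hΓ q (gen.sub q h2) c hc))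
    have h7 : p = vl G (inN_op zok (bo.kN _ (mo.zc c hc)) (re.rg.fn _ (mo.mu Γ hΓ q (gen.sub q h2) c hc))) := by
      apply Subtype.ext
      rw [← h3]
      show val N G _ = val N G _
      rw [← h5]
    rw [h7] at hpp
    obtain ⟨h8, h9⟩ := pair_uniq ok fok zok gen hpp h6
    exact ⟨c, hc, q, h2, h4, h8, h9⟩
  · rintro ⟨c, hc, q, hq, h1, rfl, rfl⟩
    have h6 := op_pair ok zok gen (bo.kN _ (mo.zc c hc)) (re.rg.fn _ (mo.mu Γ hΓ q (gen.sub q hq) c hc))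
    exact ⟨_, mem_val.mpr ⟨⟨c, q, h1⟩, inN_op zok (bo.kN _ (mo.zc c hc)) (re.rg.fn _ (mo.mu Γ hΓ q (gen.sub q hq) c hc)),
      hq, rfl⟩, h6⟩

include ok ook gen in
/-- The measure is well defined. -/
lemma mu_eq (Γ : Set Ω1) {c c' : Cd} {hc : InT N c} {hc' : InT N c'} {q q' : QC} (hq : q ∈ G) (hq' : q' ∈ G)
    (h : ∀ β ∈ c.1, β < q.h) (h' : ∀ β ∈ c'.1, β < q'.h) (e : kv bo G (mo.zc c hc) = kv bo G (mo.zc c' hc')) :
    mu Γ q c = mu Γ q' c' := by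
  classical
  obtain ⟨r, hr, h1, h2⟩ := gen.dir q hq q' hq'
  rw [← mu_congr h1 h, ← mu_congr h2 h']
  unfold mu
  congr 1
  ext t
  have hF : ∀ β ∈ c.1 ∪ c'.1, β < r.h := by
    intro β hβ
    rcases Finset.mem_union.mp hβ with hβ | hβ
    · exact (h β hβ).trans_le h1.1
    · exact (h' β hβ).trans_le h2.1
  obtain ⟨B, hB, hS, h3⟩ := point_of ook bo gen Γ hr hF t
  show tr Γ r c.1 t ∈ c.2 ↔ tr Γ r c'.1 t ∈ c'.2
  rw [← h3 c Finset.subset_union_left, ← h3 c' Finset.subset_union_right]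
  have h4 := bv_mem_kv ok ook bo gen (mo.zc c hc) hB
  have h5 := bv_mem_kv ok ook bo gen (mo.zc c' hc') hB
  rw [e] at h4
  constructor
  · intro h6; exact (h5.mp (h4.mpr ⟨hS, h6⟩)).2
  · intro h6; exact (h4.mp (h5.mpr ⟨hS, h6⟩)).2

include ok ook gen in
/-- The measure is additive. -/
lemma mu_add (Γ : Set Ω1) {c1 c2 c3 : Cd} {h1 : InT N c1} {h2 : InT N c2} {h3 : InT N c3} {q : QC} (hq : q ∈ G)
    (l1 : ∀ β ∈ c1.1, β < q.h) (l2 : ∀ β ∈ c2.1, β < q.h) (l3 : ∀ β ∈ c3.1, β < q.h)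
    (hd : ∀ A : MM N G, EE A (kv bo G (mo.zc c1 h1)) → ¬ EE A (kv bo G (mo.zc c2 h2)))
    (hu : ∀ A : MM N G, EE A (kv bo G (mo.zc c3 h3)) ↔ EE A (kv bo G (mo.zc c1 h1)) ∨ EE A (kv bo G (mo.zc c2 h2))) :
    mu Γ q c3 = mu Γ q c1 + mu Γ q c2 := by
  classical
  have hF : ∀ β ∈ c1.1 ∪ c2.1 ∪ c3.1, β < q.h := by
    intro β hβ
    rcases Finset.mem_union.mp hβ with hβ | hβ
    · rcases Finset.mem_union.mp hβ with hβ | hβ
      · exact l1 β hβ
      · exact l2 β hβ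
    · exact l3 β hβ
  have s1 : c1.1 ⊆ c1.1 ∪ c2.1 ∪ c3.1 := fun x hx => Finset.mem_union_left _ (Finset.mem_union_left _ hx)
  have s2 : c2.1 ⊆ c1.1 ∪ c2.1 ∪ c3.1 := fun x hx => Finset.mem_union_left _ (Finset.mem_union_right _ hx)
  have s3 : c3.1 ⊆ c1.1 ∪ c2.1 ∪ c3.1 := Finset.subset_union_right
  have hset : {t : Tp | tr Γ q c3.1 t ∈ c3.2} = {t : Tp | tr Γ q c1.1 t ∈ c1.2} ∪ {t : Tp | tr Γ q c2.1 t ∈ c2.2} := by
    ext t
    obtain ⟨B, hB, hS, h3'⟩ := point_of ook bo gen Γ hq hF t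
    show tr Γ q c3.1 t ∈ c3.2 ↔ tr Γ q c1.1 t ∈ c1.2 ∨ tr Γ q c2.1 t ∈ c2.2
    rw [← h3' c1 s1, ← h3' c2 s2, ← h3' c3 s3]
    have e1 := bv_mem_kv ok ook bo gen (mo.zc c1 h1) hB
    have e2 := bv_mem_kv ok ook bo gen (mo.zc c2 h2) hB
    have e3 := bv_mem_kv ok ook bo gen (mo.zc c3 h3) hB
    have e4 := hu (bv bo G hB)
    constructor
    · intro h
      rcases e4.mp (e3.mpr ⟨hS, h⟩) with h | h
      · exact Or.inl (e1.mp h).2
      · exact Or.inr (e2.mp h).2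
    · rintro (h | h)
      · exact (e3.mp (e4.mpr (Or.inl (e1.mpr ⟨hS, h⟩)))).2
      · exact (e3.mp (e4.mpr (Or.inr (e2.mpr ⟨hS, h⟩)))).2
  have hdis : Disjoint {t : Tp | tr Γ q c1.1 t ∈ c1.2} {t : Tp | tr Γ q c2.1 t ∈ c2.2} := by
    rw [Set.disjoint_left]
    intro t ht1 ht2
    obtain ⟨B, hB, hS, h3'⟩ := point_of ook bo gen Γ hq hF t
    have e1 := (bv_mem_kv ok ook bo gen (mo.zc c1 h1) hB).mpr ⟨hS, (h3' c1 s1).mpr ht1⟩
    have e2 := (bv_mem_kv ok ook bo gen (mo.zc c2 h2) hB).mpr ⟨hS, (h3' c2 s2).mpr ht2⟩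
    exact hd _ e1 e2
  unfold mu
  rw [hset]
  exact measureReal_union hdis (tr_meas Γ q c2.1 c2.2)

include ok fok ook gen in
/-- The closed and open sets and their codes. -/
lemma mem_cf {U : MM N G} : EE U (vl G mo.cf.rg) ↔ ∃ (c : Cd) (hc : InT N c), U = kv bo G (mo.zc c hc) :=
  mem_rg (top_mem ok gen) mo.cf

include ok fok sok ook cl fo gen in
lemma cf_clop {U : MM N G} : EE U (vl G mo.cf.rg) ↔ CpM zok ook bo U := by
  rw [mem_cf ok fok ook bo mo gen]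
  constructor
  · rintro ⟨c, hc, rfl⟩
    exact clop_zf ok fok zok ook bo gen (mo.ce c hc) (mo.zc c hc)
  · intro hU
    obtain ⟨F, hF, b, hb, hZ, rfl⟩ := exists_zf ok fok zok sok ook bo cl fo gen hU
    obtain ⟨q, hq, hh⟩ := exists_high bo gen F hF
    exact ⟨(F, b), mo.cN q.h (bo.hts q (gen.sub q hq)) F hh b hb, kv_congr bo rfl⟩

include ok fok sok cl fo in
/-- The measures are probability measures in the model. -/
theorem isProb {Γ : Set Ω1} (hΓ : InT N Γ) : letI := rfield zok (top_mem ok gen) cok re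
    letI := rorder zok (top_mem ok gen) cok re
    IsProb (EE (N := N) (G := G)) (ww G zok) (RR G re) (kk G ook) (XM bo G) (mv mo G hΓ) := by
  classical
  have htop := top_mem ok gen
  letI := rfield zok (top_mem ok gen) cok re
  letI := rorder zok (top_mem ok gen) cok re
  have hval : ∀ (c : Cd) (hc : InT N c), ∃ q ∈ G, ∀ β ∈ c.1, β < q.h := fun c hc => exists_high bo gen c.1 (mo.ce c hc)
  refine ⟨⟨vl G mo.cf.rg, fun U => cf_clop ok fok zok sok ook bo cl fo mo gen, ?_, ?_⟩, ?_, ?_, ?_⟩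
  · intro p hp
    obtain ⟨⟨c', q, hq'⟩, h1, h2, h3⟩ := mem_val.mp hp
    obtain ⟨c, ⟨h4, h5⟩, hc⟩ := mo.mw Γ hΓ _ h1 q (gen.sub q h2) ⟨c', hq', rfl⟩
    have h6 := op_pair ok zok gen (bo.kN _ (mo.zc c hc)) (re.rg.fn _ (mo.mu Γ hΓ q (gen.sub q h2) c hc))
    have h7 : p = vl G (inN_op zok (bo.kN _ (mo.zc c hc)) (re.rg.fn _ (mo.mu Γ hΓ q (gen.sub q h2) c hc))) := by
      apply Subtype.ext
      rw [← h3]
      show val N G _ = val N G _
      rw [← h5]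
    refine ⟨kv bo G (mo.zc c hc), rv G re (mo.mu Γ hΓ q (gen.sub q h2) c hc), (mem_cf ok fok ook bo mo gen).mpr ⟨c, hc, rfl⟩,
      (mem_RR htop re).mpr ⟨_, _, rfl⟩, ?_⟩
    rw [h7]; exact h6
  · intro U hU
    obtain ⟨c, hc, rfl⟩ := (mem_cf ok fok ook bo mo gen).mp hU
    obtain ⟨q, hq, h⟩ := hval c hc
    refine ⟨rv G re (mo.mu Γ hΓ q (gen.sub q hq) c hc), (rel_mv ok fok zok re bo mo gen hΓ).mpr ⟨c, hc, q, hq, h, rfl, rfl⟩,
      fun r hr => ?_⟩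
    obtain ⟨c', hc', q', hq', h', e1, rfl⟩ := (rel_mv ok fok zok re bo mo gen hΓ).mp hr
    exact rv_congr re (mu_eq (hc := hc') (hc' := hc) ok ook bo mo gen Γ hq' hq h' h e1.symm)
  · intro U a ha
    obtain ⟨c, hc, q, hq, h, _, e⟩ := (rel_mv ok fok zok re bo mo gen hΓ).mp ha
    have e2 := rr_eq (hy := mo.mu Γ hΓ q (gen.sub q hq) c hc) zok htop cok re a e
    rw [rr_le zok htop cok re, rr_zero zok htop cok re]
    show (0 : ℝ) ≤ (rr htop re a : ℝ)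
    rw [e2]
    exact measureReal_nonneg
  · obtain ⟨q, hq, _⟩ := exists_height bo gen bo.bot
    have hc : InT N ((∅, {∅}) : Cd) := mo.cN q.h (bo.hts q (gen.sub q hq)) ∅ (by simp) {∅} (by simp)
    refine (rel_mv ok fok zok re bo mo gen hΓ).mpr ⟨(∅, {∅}), hc, q, hq, by simp, ?_, ?_⟩
    · refine kv_congr bo ?_
      ext B
      simp [Zf]
    · have h1 := rr_spec htop re (1 : El (EE (N := N) (G := G)) (RR G re))
      rw [h1]
      refine rv_congr re ?_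
      rw [rr_one zok htop cok re]
      show (1 : ℝ) = mu Γ q (∅, {∅})
      unfold mu tr
      simp
  · intro U V W a b c hd hu hU hV hW
    obtain ⟨c1, h1, q1, hq1, l1, rfl, e1⟩ := (rel_mv ok fok zok re bo mo gen hΓ).mp hU
    obtain ⟨c2, h2, q2, hq2, l2, rfl, e2⟩ := (rel_mv ok fok zok re bo mo gen hΓ).mp hV
    obtain ⟨c3, h3, q3, hq3, l3, rfl, e3⟩ := (rel_mv ok fok zok re bo mo gen hΓ).mp hW
    obtain ⟨r1, hr1, k1, k2⟩ := gen.dir q1 hq1 q2 hq2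
    obtain ⟨r, hr, k3, k4⟩ := gen.dir r1 hr1 q3 hq3
    have ea := rr_eq (hy := mo.mu Γ hΓ q1 (gen.sub q1 hq1) c1 h1) zok htop cok re a e1
    have eb := rr_eq (hy := mo.mu Γ hΓ q2 (gen.sub q2 hq2) c2 h2) zok htop cok re b e2
    have ec := rr_eq (hy := mo.mu Γ hΓ q3 (gen.sub q3 hq3) c3 h3) zok htop cok re c e3
    refine rr_inj zok htop cok re (Subtype.ext ?_)
    rw [rr_add zok htop cok re]
    show (rr htop re c : ℝ) = (rr htop re a : ℝ) + (rr htop re b : ℝ)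
    rw [ea, eb, ec, ← mu_congr (k3.trans k1) l1, ← mu_congr (k3.trans k2) l2, ← mu_congr k4 l3]
    exact mu_add (h1 := h1) (h2 := h2) (h3 := h3) ok ook bo mo gen Γ hr (fun β hβ => (l1 β hβ).trans_le (k3.trans k1).1)
      (fun β hβ => (l2 β hβ).trans_le (k3.trans k2).1) (fun β hβ => (l3 β hβ).trans_le k4.1) hd hu

end

end Pool.Agent.H55.Tig
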