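import Pool.Agent.H55.Tig.T6

set_option autoImplicit false
set_option linter.all false

/-!
# The Dirac measure and the main result
-/

namespace Pool.Agent.H55.Tig

open Pool.Agent.H12.Jayne Pool.Agent.H55.Lav Pool.Agent.H55.SC Pool.Agent.H55.ZFU Pool.Agent.H55.Sig Pool.Agent.H55.CS
open Pool.Agent.H55.TG Pool.Agent.H55.Jay MeasureTheory

lemma tr_empty (q : QC) (F : Finset Ω1) (t : Tp) : tr ∅ q F t = ∅ := by
  rw [Finset.eq_empty_iff_forall_notMem]
  intro β hβ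
  exact (mem_tr.mp hβ).2.1

lemma tr_high {γ : Ω1} (q : QC) {F : Finset Ω1} (hF : ∀ β ∈ F, β < γ) (t : Tp) : tr (Set.Ioi γ) q F t = ∅ := by
  rw [Finset.eq_empty_iff_forall_notMem]
  intro β hβ
  obtain ⟨h1, h2, _⟩ := mem_tr.mp hβ
  exact lt_asymm (hF β h1) h2

section
variable {N : Set (Un QC)} {G : Set QC} (ok : NOk N) (fok : FOk N) (zok : ZOk N) (sok : SOk N) (cok : COk N) (ook : OOk N)
  (re : ReOk N) (bo : BOk N) (cl : ClOk N) (fo : FoOk N) (mo : MOk N) (gen : GenF N G)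

include bo gen in
/-- The empty set belongs to the compact space. -/
lemma empty_mem : Ht G (SX (∅ : Set Ω1)) := by
  obtain ⟨q, hq, _⟩ := exists_height bo gen bo.bot
  exact ⟨q, hq, fun β hβ => hβ.elim, 0, fun β hβ => hβ.elim⟩

include ok fok sok ook cl fo in
theorem isDirac : letI := rfield zok (top_mem ok gen) cok re
    letI := rorder zok (top_mem ok gen) cok re
    IsDirac (EE (N := N) (G := G)) (ww G zok) (RR G re) (kk G ook) (XM bo G) (bv bo G mo.emp) (mv mo G mo.emp) := by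
  classical
  have htop := top_mem ok gen
  letI := rfield zok (top_mem ok gen) cok re
  letI := rorder zok (top_mem ok gen) cok re
  refine ⟨(bv_mem_XM ok ook bo gen mo.emp).mpr (empty_mem bo gen), isProb ok fok zok sok cok ook re bo cl fo mo gen mo.emp,
    fun U hU hxU => ?_⟩
  obtain ⟨c, hc, rfl⟩ := (mem_cf ok fok ook bo mo gen).mp ((cf_clop ok fok zok sok ook bo cl fo mo gen).mpr hU)
  obtain ⟨q, hq, hh⟩ := exists_high bo gen c.1 (mo.ce c hc)
  refine (rel_mv ok fok zok re bo mo gen mo.emp).mpr ⟨c, hc, q, hq, hh, rfl, ?_⟩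
  have h1 := rr_spec htop re (1 : El (EE (N := N) (G := G)) (RR G re))
  rw [h1]
  refine rv_congr re ?_
  rw [rr_one zok htop cok re]
  show (1 : ℝ) = mu ∅ q c
  have h2 : (∅ : Set Ω1) ∈ Zf c.1 c.2 := ((bv_mem_kv ok ook bo gen (mo.zc c hc) mo.emp).mp hxU).2
  have h3 : (∅ : Finset Ω1) ∈ c.2 := (mem_zf (P := ∅) (by simp)).mp h2
  unfold mu
  have : {t : Tp | tr ∅ q c.1 t ∈ c.2} = Set.univ := by
    ext t
    simp [tr_empty, h3]
  rw [this]
  simp

/-- The set of the measures in the model. -/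
noncomputable def Av (G : Set QC) : MM N G := vl G mo.gf.rg

include ok in
lemma mem_Av (gen : GenF N G) {m : MM N G} : EE m (Av mo G) ↔ ∃ γ, ∃ h : InT N γ, m = mv mo G (mo.io γ h) :=
  mem_rg (top_mem ok gen) mo.gf

include ok fok sok ook cl fo in
theorem inClosure : letI := rfield zok (top_mem ok gen) cok re
    letI := rorder zok (top_mem ok gen) cok re
    InWeakClosure (EE (N := N) (G := G)) (ww G zok) (RR G re) (kk G ook) (XM bo G) (Av mo G) (mv mo G mo.emp) := by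
  classical
  have htop := top_mem ok gen
  letI := rfield zok (top_mem ok gen) cok re
  letI := rorder zok (top_mem ok gen) cok re
  intro S ε hS hSc hε
  have hfin : {z : MM N G | EE z S}.Finite := Pool.Agent.H55.Jay.finite_of htop hS
  have hcode : ∀ z : {z : MM N G | EE z S}, ∃ (c : Cd) (hc : InT N c), z.1 = kv bo G (mo.zc c hc) := fun z =>
    (mem_cf ok fok ook bo mo gen).mp ((cf_clop ok fok zok sok ook bo cl fo mo gen).mpr (hSc z.1 z.2))
  choose c hc hz using hcode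
  have : Fintype {z : MM N G | EE z S} := hfin.fintype
  let F : Finset Ω1 := Finset.univ.biUnion (fun z : {z : MM N G | EE z S} => (c z).1)
  have hF : ∀ β ∈ F, InT N β := by
    intro β hβ
    obtain ⟨z, _, hβz⟩ := Finset.mem_biUnion.mp hβ
    exact mo.ce (c z) (hc z) β hβz
  obtain ⟨q, hq, hh⟩ := exists_high bo gen F hF
  have hγ : InT N q.h := bo.hts q (gen.sub q hq)
  refine ⟨mv mo G (mo.io q.h hγ), (mem_Av ok mo gen).mpr ⟨q.h, hγ, rfl⟩, fun U hU a b ha hb => ?_⟩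
  obtain ⟨c1, h1, q1, hq1, l1, e1, e1'⟩ := (rel_mv ok fok zok re bo mo gen (mo.io q.h hγ)).mp ha
  obtain ⟨c2, h2, q2, hq2, l2, e2, e2'⟩ := (rel_mv ok fok zok re bo mo gen mo.emp).mp hb
  have hcU := hz ⟨U, hU⟩
  have hlow : ∀ β ∈ (c ⟨U, hU⟩).1, β < q.h := fun β hβ => hh β (Finset.mem_biUnion.mpr ⟨⟨U, hU⟩, Finset.mem_univ _, hβ⟩)
  have f1 := mu_eq (hc := h1) (hc' := hc ⟨U, hU⟩) ok ook bo mo gen (Set.Ioi q.h) hq1 hq l1 hlow (e1.symm.trans hcU)
  have f2 := mu_eq (hc := h2) (hc' := hc ⟨U, hU⟩) ok ook bo mo gen ∅ hq2 hq l2 hlow (e2.symm.trans hcU)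
  have f3 : mu (Set.Ioi q.h) q (c ⟨U, hU⟩) = mu ∅ q (c ⟨U, hU⟩) := by
    unfold mu
    congr 1
    ext t
    show tr (Set.Ioi q.h) q (c ⟨U, hU⟩).1 t ∈ (c ⟨U, hU⟩).2 ↔ tr ∅ q (c ⟨U, hU⟩).1 t ∈ (c ⟨U, hU⟩).2
    rw [tr_high q hlow, tr_empty]
  have ea := rr_eq (hy := mo.mu _ (mo.io q.h hγ) q1 (gen.sub q1 hq1) c1 h1) zok htop cok re a e1'
  have eb := rr_eq (hy := mo.mu _ mo.emp q2 (gen.sub q2 hq2) c2 h2) zok htop cok re b e2'
  have hab : (rr htop re a : ℝ) = (rr htop re b : ℝ) := by rw [ea, eb, f1, f2, f3]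
  have hε' : 0 < (rr htop re ε : ℝ) := by
    have h4 := (rr_lt zok htop cok re).mp hε
    rw [rr_zero zok htop cok re] at h4
    exact h4
  constructor
  · rw [rr_lt zok htop cok re, rr_add zok htop cok re]
    show (rr htop re a : ℝ) < (rr htop re b : ℝ) + (rr htop re ε : ℝ)
    rw [hab]; linarith
  · rw [rr_lt zok htop cok re, rr_add zok htop cok re]
    show (rr htop re b : ℝ) < (rr htop re a : ℝ) + (rr htop re ε : ℝ)
    rw [hab]; linarith

include ok fok sok ook cl fo in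
theorem not_inClosure : letI := rfield zok (top_mem ok gen) cok re
    letI := rorder zok (top_mem ok gen) cok re
    ∀ B, CS.Sub (EE (N := N) (G := G)) B (Av mo G) → IsCountable (EE (N := N) (G := G)) (ww G zok) B →
      ¬ InWeakClosure (EE (N := N) (G := G)) (ww G zok) (RR G re) (kk G ook) (XM bo G) B (mv mo G mo.emp) := by
  classical
  have htop := top_mem ok gen
  letI := rfield zok (top_mem ok gen) cok re
  letI := rorder zok (top_mem ok gen) cok re
  intro B hB hBc hcl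
  let ε : El (EE (N := N) (G := G)) (RR G re) := ⟨rv G re (inT_inv_nat re 1), (mem_RR htop re).mpr ⟨_, _, rfl⟩⟩
  have eε : (rr htop re ε : ℝ) = 1 / ((1 : ℕ) + 1 : ℝ) := rr_eq (hy := inT_inv_nat re 1) zok htop cok re ε rfl
  have hε : 0 < ε := by
    rw [rr_lt zok htop cok re, rr_zero zok htop cok re]
    show (0 : ℝ) < (rr htop re ε : ℝ)
    rw [eε]; norm_num
  -- all measures in `B` have parameters below some `α`
  have hbd : ∃ α, InT N α ∧ ∀ m, EE m B → ∃ γ, ∃ h : InT N γ, γ < α ∧ m = mv mo G (mo.io γ h) := by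
    rcases hBc with hemp | ⟨f, hf1, hf2⟩
    · exact ⟨⊥, bo.bot, fun m hm => (hemp m hm).elim⟩
    obtain ⟨τ, hτ, e⟩ := f.2
    have e' : f = vl G hτ := Subtype.ext e.symm
    subst e'
    have hrel : ∀ (n : ℕ) (γ : Ω1) (hγ : InT N γ), Rel (EE (N := N) (G := G)) (vl G hτ) (nv G zok n) (mv mo G (mo.io γ hγ)) ↔
        ∃ q ∈ G, fmem (opN (ck QC n) (gN γ)) τ q := by
      intro n γ hγ
      rw [show (nv G zok n : MM N G) = vl G (zok.nat n) from rfl,
        show mv mo G (mo.io γ hγ) = vl G (mo.mN _ (mo.io γ hγ)) from rfl,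
        rel_iff_op ok fok zok gen (zok.nat n) (mo.mN _ (mo.io γ hγ))]
      exact val_mem ok gen (inN_op zok (zok.nat n) (mo.mN _ (mo.io γ hγ))) hτ
    have hSm : ∀ (n : ℕ) (p q : QC), p ∈ Sg τ n → q ≤ p → q ∈ Sg τ n := by
      rintro n p q ⟨γ, hγ⟩ hq
      exact ⟨γ, fmem_mono hγ hq⟩
    obtain ⟨q, hq, hdec⟩ := decide_open qc_closed sok gen (mo.sg τ hτ) hSm
    have hfn : ∀ n : ℕ, ∃ γ, ∃ hγ : InT N γ, Rel (EE (N := N) (G := G)) (vl G hτ) (nv G zok n) (mv mo G (mo.io γ hγ)) := by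
      intro n
      obtain ⟨x, hx, _⟩ := hf1.2 _ ((mem_ww htop).mpr ⟨n, rfl⟩)
      have hxB : EE x B := by
        obtain ⟨p, hp, hpp⟩ := hx
        obtain ⟨x', r', _, hr', hpr'⟩ := hf1.1 p hp
        obtain ⟨_, e2⟩ := pair_uniq ok fok zok gen hpp hpr'
        rw [e2]; exact hr'
      obtain ⟨γ, hγ, rfl⟩ := (mem_Av ok mo gen).mp (hB x hxB)
      exact ⟨γ, hγ, hx⟩
    have hall : ∀ n : ℕ, ∃ γ : Ω1, fmem (opN (ck QC n) (gN γ)) τ q := by
      intro n
      obtain ⟨γ, hγ, hx⟩ := hfn n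
      obtain ⟨r, hr, h1⟩ := (hrel n γ hγ).mp hx
      exact (hdec n).1.mp ⟨r, hr, γ, h1⟩
    choose g0 hg0 using hall
    obtain ⟨g, hg1, hg2, α, hα, hg3⟩ := mo.sq τ hτ q (gen.sub q hq) ⟨g0, hg0⟩
    refine ⟨α, hα, fun m hm => ?_⟩
    obtain ⟨x, hx, hxm⟩ := hf2 m hm
    obtain ⟨n, rfl⟩ := (mem_ww htop).mp hx
    obtain ⟨y, hy, hu⟩ := hf1.2 _ hx
    refine ⟨g n, hg2 n, hg3 n, ?_⟩
    rw [hu m hxm]
    exact (hu _ ((hrel n (g n) (hg2 n)).mpr ⟨q, hq, hg1 n⟩)).symm
  obtain ⟨α, hα, hb⟩ := hbd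
  obtain ⟨q, hq, hαq⟩ := exists_height bo gen hα
  have hc : InT N (({α}, {{α}}) : Cd) := mo.cN q.h (bo.hts q (gen.sub q hq)) {α} (by simpa using hαq) {{α}} (by simp)
  have Hf := Pool.Agent.H55.Jay.exists_fin ok fok zok gen [kv bo G (mo.zc _ hc)]
  obtain ⟨S, hS1, hS2⟩ := Hf
  have hclop : CpM zok ook bo (kv bo G (mo.zc _ hc)) := (cf_clop ok fok zok sok ook bo cl fo mo gen).mp
    ((mem_cf ok fok ook bo mo gen).mpr ⟨_, hc, rfl⟩)
  obtain ⟨m, hm, hmS⟩ := hcl S ε hS2 (fun U hU => by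
    rw [hS1, List.mem_singleton] at hU
    rw [hU]; exact hclop) hε
  obtain ⟨γ, hγ, hγα, rfl⟩ := hb m hm
  have hlow : ∀ β ∈ (({α}, {{α}}) : Cd).1, β < q.h := by simpa using hαq
  let a : El (EE (N := N) (G := G)) (RR G re) := ⟨rv G re (mo.mu _ (mo.io γ hγ) q (gen.sub q hq) _ hc), (mem_RR htop re).mpr ⟨_, _, rfl⟩⟩
  let b : El (EE (N := N) (G := G)) (RR G re) := ⟨rv G re (mo.mu _ mo.emp q (gen.sub q hq) _ hc), (mem_RR htop re).mpr ⟨_, _, rfl⟩⟩
  have ea : (rr htop re a : ℝ) = mu (Set.Ioi γ) q ({α}, {{α}}) := rr_eq (hy := mo.mu _ (mo.io γ hγ) q (gen.sub q hq) _ hc) zok htop cok re a rfl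
  have eb : (rr htop re b : ℝ) = mu ∅ q ({α}, {{α}}) := rr_eq (hy := mo.mu _ mo.emp q (gen.sub q hq) _ hc) zok htop cok re b rfl
  have h1 := (hmS (kv bo G (mo.zc _ hc)) ((hS1 _).mpr (List.mem_singleton.mpr rfl)) a b
    ((rel_mv ok fok zok re bo mo gen (mo.io γ hγ)).mpr ⟨_, hc, q, hq, hlow, rfl, rfl⟩)
    ((rel_mv ok fok zok re bo mo gen mo.emp).mpr ⟨_, hc, q, hq, hlow, rfl, rfl⟩)).1
  rw [rr_lt zok htop cok re, rr_add zok htop cok re] at h1
  have h2 : (rr htop re a : ℝ) < (rr htop re b : ℝ) + (rr htop re ε : ℝ) := h1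
  have h3 : mu (Set.Ioi γ) q ({α}, {{α}}) = volume.real (Kq q α) := by
    unfold mu
    congr 1
    ext t
    show tr (Set.Ioi γ) q {α} t ∈ ({{α}} : Finset (Finset Ω1)) ↔ t ∈ Kq q α
    rw [Finset.mem_singleton]
    constructor
    · intro h
      have : α ∈ ({α} : Finset Ω1) := Finset.mem_singleton_self _
      rw [← h] at this
      exact (mem_tr.mp this).2.2
    · intro h
      ext β
      rw [mem_tr, Finset.mem_singleton]
      constructor
      · intro h'; exact h'.1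
      · rintro rfl; exact ⟨rfl, hγα, h⟩
  have h4 : mu ∅ q ({α}, {{α}}) = 0 := by
    unfold mu
    have : {t : Tp | tr ∅ q ({α} : Finset Ω1) t ∈ ({{α}} : Finset (Finset Ω1))} = ∅ := by
      ext t
      simp only [tr_empty, Set.mem_empty_iff_false, iff_false]
      intro h
      have h' : (∅ : Finset Ω1) ∈ ({{α}} : Finset (Finset Ω1)) := h
      rw [Finset.mem_singleton] at h'
      exact (Finset.singleton_ne_empty α) h'.symm
    show volume.real {t : Tp | tr ∅ q ({α} : Finset Ω1) t ∈ ({{α}} : Finset (Finset Ω1))} = 0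
    rw [this]
    simp
  rw [ea, eb, eε, h3, h4] at h2
  have h5 := kq_meas q α
  norm_num at h2
  linarith

end

/-- The main result. -/
theorem main_result : ∃ (M : Type 1) (E : M → M → Prop), Countable M ∧ WellFounded E ∧ CS.ZFC E ∧
    ∃ w, IsOmega E w ∧ ∃ (R I X x d P : M) (_ : Field (El E R)) (_ : LinearOrder (El E R)),
      IsReals E R ∧ IsTightCompactum E w I X ∧ IsDirac E w R I X x d ∧ (∀ m, E m P → IsProb E w R I X m) ∧
      InWeakClosure E w R I X P d ∧ ∀ B, CS.Sub E B P → IsCountable E w B → ¬ InWeakClosure E w R I X B d := by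
  obtain ⟨N, hcount, all, sok, cok, ook, re, bo, cl, fo, es, mo, G, gen⟩ := ((club_countable (Ω := Un QC)).and
    ((allOk_club (Q := QC)).and (sok_club.and (cok_club.and (ook_club.and (reOk_club.and (bOk_club.and
      (clOk_club.and (foOk_club.and (esOk_club.and (mOk_club.and exists_genF))))))))))).exists
  have htop := top_mem all.ok gen
  have hch := choice_ax all.ok all.fok all.zok all.aok gen
  refine ⟨MM N G, EE, ?_, InvImage.wf Subtype.val ZFSet.mem_wf, hch, ww G all.zok, isOmega_ww htop, RR G re, kk G ook, XM bo G,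
    bv bo G mo.emp, mv mo G mo.emp, Av mo G,
    rfield all.zok (top_mem all.ok gen) cok re, rorder all.zok (top_mem all.ok gen) cok re, ?_, ?_, ?_, ?_, ?_, ?_⟩
  · have h1 : {τ : Nm QC | InN N τ}.Countable := hcount.preimage_of_injOn uN_inj.injOn
    have h2 : Countable {τ : Nm QC | InN N τ} := h1.to_subtype
    refine Function.Surjective.countable (f := fun τ : {τ : Nm QC | InN N τ} => (vl G τ.2 : MM N G)) ?_
    rintro ⟨x, τ, hτ, rfl⟩
    exact ⟨⟨τ, hτ⟩, rfl⟩
  · exact isReals all.ok all.fok all.zok sok cok re gen qc_closed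
  · refine ⟨fun A hA => ?_, compact all.ok all.fok all.zok sok ook bo cl fo gen, tight all.ok all.fok all.zok ook bo cl fo es gen⟩
    obtain ⟨B, hB, hS, rfl⟩ := (mem_XM bo gen).mp hA
    refine ⟨fun z hz => ?_, countable_bv all.ok all.fok all.zok ook bo cl es gen hB hS⟩
    obtain ⟨β, h, _, rfl⟩ := (mem_bv ook bo htop hB).mp hz
    exact (mem_kk htop).mpr ⟨β, h, rfl⟩
  · exact isDirac all.ok all.fok all.zok sok cok ook re bo cl fo mo gen
  · intro m hm
    obtain ⟨γ, hγ, rfl⟩ := (mem_Av all.ok mo gen).mp hm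
    exact isProb all.ok all.fok all.zok sok cok ook re bo cl fo mo gen (mo.io γ hγ)
  · exact inClosure all.ok all.fok all.zok sok cok ook re bo cl fo mo gen
  · exact not_inClosure all.ok all.fok all.zok sok cok ook re bo cl fo mo gen

end Pool.Agent.H55.Tig
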